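import Pool.Agent.T9h21.SD.Fml

set_option autoImplicit false

/-!
# Placements and tours whose lengths are knapsack functions
-/

namespace Pool.Agent.T9h21.SD

open Finset
open Pool.Agent.ETSP (tl)
open Pool.Agent.T9h21.TB Pool.Agent.T9h21.TB.Board
open Pool.Agent.TH661.LRS (res kf wt kf_nonneg)

/-- the length of a shortest tour -/
noncomputable def CS (Nv t K : ℕ) : ℝ :=
  K * (2 * ((packB (SF_M Nv)).tot : ℝ)) +
    ((2 * ((2 * t + 1) * (2 * t + 1)) : ℕ) : ℝ) * (kap K - 10 * K + 1) -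
    2 * (((2 * t + 1 : ℕ) : ℝ) * ((2 * t + 1 : ℕ) : ℝ) + 2 * (t * (t + 1)))

/-- the assignment of the variables -/
def asg {m b : ℕ} (x : Fin m × Fin b → Bool) (u : ℕ) : Bool :=
  if h : u < m * b then x (finProdFinEquiv.symm ⟨u, h⟩) else false

theorem asg_vi {m b : ℕ} (x : Fin m × Fin b → Bool) (S : Fin m → Fin b) (i : Fin m) :
    asg x (vi S i) = res S x i := by
  unfold asg
  rw [dif_pos (vi_lt S i)]
  have : (⟨vi S i, vi_lt S i⟩ : Fin (m * b)) = finProdFinEquiv (i, S i) := rfl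
  rw [this, Equiv.symm_apply_apply]
  rfl

theorem exists_inst {t b n K N : ℕ}
    (hN1 : (64 * (SF ((2 * t + 1) * b)).board.M + 70) * K ≤ N)
    (hN2 : (72 * (SF ((2 * t + 1) * b)).board.h + 54) * K + 1 ≤ N)
    (hn : n < 18 * K + n0 (SF ((2 * t + 1) * b)).board) (hK : 2 ≤ K)
    (hKm : 552 * (2 * ((2 * t + 1) * (2 * t + 1))) ≤ 2 * K)
    (hn0 : n0 (SF ((2 * t + 1) * b)).board ≤ n) :
    ∃ (P : (Fin (2 * t + 1) → Fin b) → Placement n N)
      (T : (Fin (2 * t + 1) × Fin b → Bool) → Tour n),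
      (∀ S x, len (P S) (T x) = CS ((2 * t + 1) * b) t K + 4 * kf t (res S x)) ∧
      ∀ S σ, CS ((2 * t + 1) * b) t K ≤ len (P S) σ := by
  set Nv := (2 * t + 1) * b with hNv
  have hT : ∀ x : Fin (2 * t + 1) × Fin b → Bool, ∃ σ : Tour n, ∀ S : Fin (2 * t + 1) → Fin b,
      len (plc (SF_M Nv) hN1 hN2 hn hK (dset (Nv + 1) (cols S))) σ =
        CS Nv t K + 4 * kf t (res S x) := by
    intro x
    obtain ⟨l, h1, h2, h3, h4⟩ := SF_list Nv (asg x)
    obtain ⟨σ, hσ⟩ := plc_upper (SF_M Nv) hN1 hN2 hn hK hn0 h1 h2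
    refine ⟨σ, fun S => ?_⟩
    rw [hσ, cost_board (SF_M Nv) (by omega) (cols_str S) h1 h2 h3, card_cols, sum_cols S]
    have e1 : ∑ i, ∑ i', ((us (Nd.C 0 false :: Nd.S 0 false :: l).formPerm
          (dn (Nv + 1) (9 * jx ((2 * t + 1) * b) (vi S i) (vi S i') false + 7))
          (dv (Nv + 1) (9 * jx ((2 * t + 1) * b) (vi S i) (vi S i') false + 7)) : ℝ) +
        (us (Nd.C 0 false :: Nd.S 0 false :: l).formPerm
          (dn (Nv + 1) (9 * jx ((2 * t + 1) * b) (vi S i) (vi S i') true + 7))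
          (dv (Nv + 1) (9 * jx ((2 * t + 1) * b) (vi S i) (vi S i') true + 7)) : ℝ)) =
        ((2 * t + 1 : ℕ) : ℝ) * ((2 * t + 1 : ℕ) : ℝ) + 2 * (t * (t + 1)) -
          2 * kf t (res S x) := by
      rw [← kf_eq, ← sum_sat S (asg x) (res S x) (asg_vi x S)]
      refine Finset.sum_congr rfl fun i _ => Finset.sum_congr rfl fun i' _ => ?_
      rw [h4 _ (jx_lt (vi_lt S i) (vi_lt S i') _), h4 _ (jx_lt (vi_lt S i) (vi_lt S i') _)]
    rw [e1]
    unfold CS
    ring
  choose T hT using hT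
  refine ⟨fun S => plc (SF_M Nv) hN1 hN2 hn hK (dset (Nv + 1) (cols S)), T,
    fun S x => hT x S, fun S σ => ?_⟩
  obtain ⟨l, h1, h2, h3⟩ := plc_lower (SF_M Nv) hN1 hN2 hn hK hn0 (e := Nv + 1) (C := cols S) σ
  refine le_trans ?_ h3
  have hm0 : (0 : ℝ) ≤ ((2 * t + 1 : ℕ) : ℝ) * ((2 * t + 1 : ℕ) : ℝ) + 2 * (t * (t + 1)) := by
    positivity
  rcases board_or (SF_M Nv) (K := K) (e := Nv + 1) (C := cols S)
    (by rw [card_cols]; exact hKm) (cols_str S) h1 h2 with h4 | h4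
  · obtain ⟨α, hα⟩ := SF_sound h4
    rw [cost_board (SF_M Nv) (by omega) (cols_str S) h1 h2 h4, card_cols, sum_cols S]
    have e1 : ∑ i, ∑ i', ((us l.formPerm
          (dn (Nv + 1) (9 * jx ((2 * t + 1) * b) (vi S i) (vi S i') false + 7))
          (dv (Nv + 1) (9 * jx ((2 * t + 1) * b) (vi S i) (vi S i') false + 7)) : ℝ) +
        (us l.formPerm
          (dn (Nv + 1) (9 * jx ((2 * t + 1) * b) (vi S i) (vi S i') true + 7))
          (dv (Nv + 1) (9 * jx ((2 * t + 1) * b) (vi S i) (vi S i') true + 7)) : ℝ)) ≤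
        ((2 * t + 1 : ℕ) : ℝ) * ((2 * t + 1 : ℕ) : ℝ) + 2 * (t * (t + 1)) -
          2 * kf t (fun i => α (vi S i)) := by
      rw [← kf_eq, ← sum_sat S α (fun i => α (vi S i)) (fun i => rfl)]
      refine Finset.sum_le_sum fun i _ => Finset.sum_le_sum fun i' _ => ?_
      have key : ∀ s, (us l.formPerm
          (dn (Nv + 1) (9 * jx ((2 * t + 1) * b) (vi S i) (vi S i') s + 7))
          (dv (Nv + 1) (9 * jx ((2 * t + 1) * b) (vi S i) (vi S i') s + 7)) : ℝ) ≤
          ((cs ((2 * t + 1) * b) α (jx ((2 * t + 1) * b) (vi S i) (vi S i') s)).toNat : ℝ) := by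
        intro s
        rcases us_cases (σ := l.formPerm)
          (dn (Nv + 1) (9 * jx ((2 * t + 1) * b) (vi S i) (vi S i') s + 7))
          (dv (Nv + 1) (9 * jx ((2 * t + 1) * b) (vi S i) (vi S i') s + 7)) with g | g
        · rw [g]
          simp
        · have g1 := hα _ (jx_lt (vi_lt S i) (vi_lt S i') s) g
          rw [g, g1]
          simp
      exact add_le_add (key false) (key true)
    have e2 := kf_nonneg t (fun i => α (vi S i))
    unfold CS
    linarith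
  · rw [card_cols] at h4
    unfold CS
    linarith

end Pool.Agent.T9h21.SD
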