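import Pool.Agent.T9h21.SD.Snd

set_option autoImplicit false

/-!
# Connected configurations with given vertical connections
-/

namespace Pool.Agent.T9h21.SD

open Pool.Agent.T9h21.TB Pool.Agent.T9h21.TB.Board Pool.Agent.T9h21.TB.Fm

section

variable {b : Board} {act : ℕ → ℕ → Bool} {m : ℕ → Bool} {kc cc : ℕ → Bool} {z0 : ℕ → ℕ → Bool}

/-- There is a configuration whose graph is connected. -/
theorem conn' (hM : 1 ≤ b.M) (hfin : {v | b.Val act v}.Finite)
    (hG : Good b act m kc cc z0) : ∃ z, Legal b act m z ∧
      (∀ i c, kc c = false → z i c = z0 i c) ∧ ∀ v, b.Val act v → Mem b hM act m z v := by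
  have hH : b.H = 2 * b.h + 2 := rfl
  obtain ⟨w, hw⟩ := exists_max (fun w : ℕ → ℕ → Bool => cnt b hM act m (b.zw m kc z0 w))
    (({v | b.Val act v}.ncard) + 1) (fun w => by
      have h1 : {v | Mem b hM act m (b.zw m kc z0 w) v} ⊆ insert (.S 0 false) {v | b.Val act v} := by
        intro v hv
        obtain ⟨p⟩ := hv.symm
        cases p with
        | nil => exact Set.mem_insert _ _
        | cons h _ => exact Set.mem_insert_of_mem _ h.1
      exact (Set.ncard_le_ncard h1 (hfin.insert _)).trans (Set.ncard_insert_le _ _))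
  set z := b.zw m kc z0 w with hz
  have hL : Legal b act m z := hG.legal w
  have hsame : ∀ i c, i + 1 < b.H → c < b.M → kc c = true → b.lm m i c = true →
      b.lm m (i + 1) c = false → Same b hM act m z i c := by
    intro i c hi hc hk h0 h1
    have ht := hG.tog w hi hc hk h0 h1
    have h2 := setw_self w i c
    cases h3 : w i c with
    | false =>
      rw [h3] at h2
      have := ht.same_closed (hM := hM) hfin (by rw [h2]; exact hw _)
      rwa [h2] at this
    | true =>
      rw [h3] at h2
      have := ht.same_open (hM := hM) hfin (by rw [h2]; exact hw _)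
      rwa [h2] at this
  have hzk : ∀ i c, kc c = true → z i c = true → b.lm m i c = true ∧ b.lm m (i + 1) c = false ∧
      i ≤ 2 * b.h := by
    intro i c hk h
    rw [hz] at h
    unfold zw at h
    rw [if_pos hk, Bool.and_eq_true] at h
    exact av_true.1 h.2
  have hzn : ∀ i c, kc c = false → z i c = z0 i c := by
    intro i c hk
    rw [hz]
    unfold zw
    rw [hk]; rfl
  have hupn : ∀ i c, kc c = false → up z i c = up z0 i c := by
    intro i c hk
    cases i with
    | zero => rfl
    | succ i => exact hzn i c hk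
  -- crossing
  have hcross : ∀ i < b.H, ∀ c < b.M, cc c = false →
      (Mem b hM act m z (Zn i c) ↔ Mem b hM act m z (Zn i (c + 1))) := by
    intro i hi c hc hcc
    cases hk : kc c with
    | false =>
      have h1 : z i c = false := by rw [hzn i c hk]; exact hG.z0_F c hc hcc i
      have h2 : up z i c = false := by
        rw [hupn i c hk]
        cases i with
        | zero => rfl
        | succ i => exact hG.z0_F c hc hcc i
      exact Mem.congr (r_str hL hi hc h2 h1).1
    | true =>
      cases h1 : z i c with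
      | true =>
        obtain ⟨g1, g2, g3⟩ := hzk i c hk h1
        exact (hsame i c (by omega) hc hk g1 g2).1
      | false =>
        cases h2 : up z i c with
        | false => exact Mem.congr (r_str hL hi hc h2 h1).1
        | true =>
          cases i with
          | zero => simp [up] at h2
          | succ i =>
            obtain ⟨g1, g2, g3⟩ := hzk i c hk h2
            exact (hsame i c hi hc hk g1 g2).2.2
  have hcross0 : ∀ c < b.M, (Mem b hM act m z (Zn 0 c) ↔ Mem b hM act m z (Zn 0 (c + 1))) := by
    intro c hc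
    cases hcc : cc c with
    | false => exact hcross 0 (by omega) c hc hcc
    | true =>
      have hk : kc c = false := by
        by_contra h
        rw [Bool.not_eq_false] at h
        have := hG.kc_cc c hc h
        rw [hcc] at this
        simp at this
      exact Mem.congr (r_str hL (by omega) hc rfl (by rw [hzn 0 c hk]; exact hG.z0_top c)).1
  have hSl : ∀ i < b.H, (Gr b hM act m z).Reachable (.S i false) (Zn i 0) := by
    intro i hi
    obtain ⟨s, hs⟩ := gu_or (b := b) (m := m) (k := 0) (tr_even (z := z) i 0)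
    have h2 := b.two_le_len i 0
    have h1 : (Gr b hM act m z).Reachable (.S i false) (.X i 0 1 s) :=
      rch hi (by rw [Nat.mul_zero] at hs; cases s <;> simp [cand, hs])
    exact h1.trans (r_Q ⟨hi, by omega, by omega, fun h => by omega⟩ s).symm
  have hSr : ∀ i < b.H, (Gr b hM act m z).Reachable (.S i true) (Zn i b.M) := by
    intro i hi
    obtain ⟨s, hs⟩ := gu_or (b := b) (m := m) (k := 12) (tr_even (z := z) i b.M)
    have h2 : b.len i (2 * b.M) = 12 := by rw [len_even hM, if_pos (Or.inr rfl)]
    have h1 : (Gr b hM act m z).Reachable (.S i true) (.X i (2 * b.M) 12 s) :=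
      rch hi (by cases s <;> simp [cand, hs])
    exact (h1.trans (r_Q ⟨hi, by omega, by omega, fun h => by omega⟩ s).symm).trans
      (r_seg hi (by omega) (by omega) (by omega) (tr_even i b.M)).symm
  have h00 : ∀ c ≤ b.M, Mem b hM act m z (Zn 0 c) := by
    intro c
    induction c with
    | zero => intro _; exact hSl 0 (by omega)
    | succ c ih => intro hc; exact (hcross0 c (by omega)).1 (ih (by omega))
  have hwin : ∀ i < b.H, ∀ c1 c2, c1 ≤ c2 → c2 ≤ b.M → (∀ e, c1 ≤ e → e < c2 → cc e = false) →
      (Mem b hM act m z (Zn i c1) ↔ Mem b hM act m z (Zn i c2)) := by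
    intro i hi c1 c2 h12 hc2 hcc
    induction c2 with
    | zero =>
      obtain rfl : c1 = 0 := by omega
      exact Iff.rfl
    | succ c2 ih =>
      rcases Nat.lt_or_ge c2 c1 with h | h
      · obtain rfl : c1 = c2 + 1 := by omega
        exact Iff.rfl
      · exact (ih h (by omega) (fun e h1 h2 => hcc e h1 (by omega))).trans
          (hcross i hi c2 (by omega) (hcc c2 h (by omega)))
  have hZ : ∀ i, i < b.H → ∀ c ≤ b.M, Mem b hM act m z (Zn i c) := by
    intro i
    induction i with
    | zero => intro _; exact h00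
    | succ i ih =>
      intro hi c hc
      obtain ⟨c1, c2, h1, h2, h3, h4, h5⟩ := hG.win c hc
      obtain ⟨e, h6, h7, h8, h9, h10⟩ := h5 i hi
      have h11 := (hsame i e hi (by omega) h8 h9 h10).2.1
      have h12 := h11.1 (ih (by omega) e (by omega))
      have h13 := (hwin (i + 1) hi c1 e h6 (by omega) (fun e' h1 h2 => h4 e' h1 (by omega))).2 h12
      exact (hwin (i + 1) hi c1 c h1 hc (fun e' h1 h2 => h4 e' h1 (by omega))).1 h13
  have hthru : ∀ i < b.H, ∀ c < b.M, up z i c = true → z i c = true → b.lit i c = true →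
      b.lm m i c = true → False := by
    intro i hi c hc h1 h2 h3 h4
    cases hk : kc c with
    | false =>
      rw [hupn i c hk] at h1
      rw [hzn i c hk] at h2
      exact hG.z0_thru i hi c hc h1 h2 h3 h4
    | true =>
      cases i with
      | zero => simp [up] at h1
      | succ i =>
        have h5 := hzk i c hk h1
        have h6 := hzk (i + 1) c hk h2
        rw [h6.1] at h5
        simp at h5
  have hpair : ∀ i, i < b.H → ∀ c < b.M, (∀ s, Mem b hM act m z (.X i (2 * c + 1) 0 s)) ∧
      (∀ s, Mem b hM act m z (.X i (2 * c + 2) 0 s)) ∧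
      (∀ k, 1 ≤ k → k ≤ b.len i (2 * c + 1) → Mem b hM act m z (.Q i (2 * c + 1) k)) := by
    intro i
    induction i with
    | zero =>
      intro hi c hc
      by_cases hud : up z 0 c = z 0 c
      · obtain ⟨-, h1, h2, h3⟩ := r_str (hM := hM) hL hi hc rfl hud.symm
        have h4 := hZ 0 hi c hc.le
        exact ⟨fun s => h4.trans (h1 s), fun s => h4.trans (h2 s),
          fun k hk hk' => h4.trans (h3 k hk hk')⟩
      · obtain ⟨g1, g2, g3, g4, g5⟩ := r_tr (hM := hM) hL hi hc hud
        have h1 := (hZ 0 hi c hc.le).trans (r_Zl hi hc)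
        have h2 := (hZ 0 hi (c + 1) hc).trans (r_Zr hi hc)
        have h3 : Mem b hM act m z (.Q 0 (2 * c + 1) 1) := h1.trans (g4 _).symm
        have h4 : Mem b hM act m z (.Q 0 (2 * c + 1) 2) := h2.trans (g5 _).symm
        refine ⟨fun s => h3.trans (g4 s), fun s => h4.trans (g5 s), fun k hk hk' => ?_⟩
        obtain rfl | rfl : k = 1 ∨ k = 2 := by omega
        · exact h3
        · exact h4
    | succ i ih =>
      intro hi c hc
      have h1 := (hZ (i + 1) hi c hc.le).trans (r_Zl hi hc)
      have h2 := (hZ (i + 1) hi (c + 1) hc).trans (r_Zr hi hc)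
      by_cases hud : up z (i + 1) c = z (i + 1) c
      · cases hz1 : z (i + 1) c with
        | false =>
          rw [hz1] at hud
          obtain ⟨-, h1, h2, h3⟩ := r_str (hM := hM) hL hi hc hud hz1
          have h4 := hZ (i + 1) hi c hc.le
          exact ⟨fun s => h4.trans (h1 s), fun s => h4.trans (h2 s),
            fun k hk hk' => h4.trans (h3 k hk hk')⟩
        | true =>
          obtain ⟨g1, g2, g3⟩ := r_in (hM := hM) hL hi hc hud
          rw [hz1] at hud
          have hzi : z i c = true := hud
          obtain ⟨q1, q2, -⟩ := ih (by omega) c hc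
          have p1 : Mem b hM act m z (.X (i + 1) (2 * c + 1) 0 true) :=
            (q1 false).trans (r_vert hL (by omega) (by omega) (by omega)
              (by rw [show (2 * c + 1 - 1) / 2 = c by omega]; exact hzi))
          have p2 : Mem b hM act m z (.X (i + 1) (2 * c + 2) 0 true) :=
            (q2 false).trans (r_vert hL (by omega) (by omega) (by omega)
              (by rw [show (2 * c + 2 - 1) / 2 = c by omega]; exact hzi))
          have p3 : Mem b hM act m z (.Q (i + 1) (2 * c + 1) 1) := by
            cases hl : b.lm m (i + 1) c with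
            | false =>
              rw [hl] at g1
              exact p1.trans g1.symm
            | true =>
              cases hl' : b.lm m (i + 1) (c + 1) with
              | true =>
                rw [hl'] at g2
                exact p2.trans g2.symm
              | false =>
                exfalso
                have h5 := lm_succ (b := b) (m := m) (i + 1) c
                rw [hl, hl'] at h5
                exact hthru (i + 1) hi c hc hud hz1
                  (of_xor_true _ h5) hl
          refine ⟨fun s => ?_, fun s => ?_, fun k hk hk' => p3.trans (g3 k hk hk')⟩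
          · rcases eq_or_not s (b.lm m (i + 1) c) with hs | hs
            · rw [hs]; exact h1
            · rw [hs]; exact p3.trans g1
          · rcases eq_or_not s (b.lm m (i + 1) (c + 1)) with hs | hs
            · rw [hs]; exact p3.trans g2
            · rw [hs]; exact h2
      · obtain ⟨g1, g2, g3, g4, g5⟩ := r_tr (hM := hM) hL hi hc hud
        have h3 : Mem b hM act m z (.Q (i + 1) (2 * c + 1) 1) := h1.trans (g4 _).symm
        have h4 : Mem b hM act m z (.Q (i + 1) (2 * c + 1) 2) := h2.trans (g5 _).symm
        refine ⟨fun s => h3.trans (g4 s), fun s => h4.trans (g5 s), fun k hk hk' => ?_⟩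
        obtain rfl | rfl : k = 1 ∨ k = 2 := by omega
        · exact h3
        · exact h4
  have hQ1 : ∀ i n k, i < b.H → n ≤ 2 * b.M → k ≤ b.len i n → 1 ≤ k →
      Mem b hM act m z (.Q i n k) := by
    intro i n k h1 h2 h3 h4
    rcases Nat.even_or_odd' n with ⟨c, rfl | rfl⟩
    · exact (hZ i h1 c (by omega)).trans (r_seg h1 h2 h4 h3 (tr_even i c))
    · exact (hpair i h1 c (by omega)).2.2 k h4 h3
  have hX : ∀ i n k s, b.Val act (.X i n k s) → Mem b hM act m z (.X i n k s) := by
    rintro i n k s hv
    rcases Nat.eq_zero_or_pos k with rfl | hk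
    · have hn := hv.2.2.2 rfl
      have hn2 := hv.2.1
      rcases Nat.even_or_odd' n with ⟨c, rfl | rfl⟩
      · obtain ⟨c, rfl⟩ : ∃ c', c = c' + 1 := ⟨c - 1, by omega⟩
        exact (hpair i hv.1 c (by omega)).2.1 s
      · exact (hpair i hv.1 c (by omega)).1 s
    · exact (hQ1 i n k hv.1 hv.2.1 hv.2.2.1 hk).trans (r_Q (val_Q hv hk) s)
  have hQ : ∀ i n k, b.Val act (.Q i n k) → Mem b hM act m z (.Q i n k) := by
    intro i n k hv
    rcases Nat.eq_zero_or_pos k with rfl | hk
    · exact (hX i n 0 true ⟨hv.1, hv.2.1, hv.2.2.1, fun h => (hv.2.2.2 h).1⟩).trans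
        (r_Q hv true).symm
    · exact hQ1 i n k hv.1 hv.2.1 hv.2.2.1 hk
  have hS : ∀ i r, i < b.H → Mem b hM act m z (.S i r) := by
    intro i r hi
    cases r with
    | false => exact (hZ i hi 0 (Nat.zero_le _)).trans (hSl i hi).symm
    | true => exact (hZ i hi b.M le_rfl).trans (hSr i hi).symm
  have hC : ∀ i r, i < b.H → Mem b hM act m z (.C i r) := by
    intro i r hi
    have h1 : (Gr b hM act m z).Reachable (.C i r) (.S i r) := rch hi (by simp [cand])
    exact (hS i r hi).trans h1.symm
  refine ⟨z, hL, hzn, fun v hv => ?_⟩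
  cases v with
  | X i n k s => exact hX i n k s hv
  | Q i n k => exact hQ i n k hv
  | S i r => exact hS i r hv
  | C i r => exact hC i r hv
  | T i r =>
    have h1 : (Gr b hM act m z).Reachable (.T i r) (.C i r) := rch hv (by simp [cand])
    exact (hC i r hv.1).trans h1.symm
  | A e c =>
    have h1 : (Gr b hM act m z).Reachable (.A e c) (.X e (2 * c + 1) 0 false) :=
      rch hv (by simp [cand])
    exact (hX _ _ _ _ ⟨by have := hv.1; omega, by have := hv.2.1; omega, Nat.zero_le _,
      fun _ => by omega⟩).trans h1.symm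

end

theorem good_of_sat' {F : Fm} (hF : F.OK) {x : ℕ → ℕ → Bool} (h : F.Sat x) :
    ∃ m kc cc z0, Board.Good F.board a0 m kc cc z0 ∧ (∀ c, c % 9 = 7 → kc c = false) ∧
      ∀ c, c % 9 = 7 → c / 9 < F.k → ∀ e ≤ 2 * F.h, F.tm (c / 9) (e + 1) = true →
        (∀ e' ≤ 2 * F.h, F.tm (c / 9) (e' + 1) = true → e' = e) → z0 e c = x (c / 9) e := by
  classical
  obtain ⟨m0, hm0⟩ := h
  set m : ℕ → Bool := fun i => if F.te i = true then false else m0 i with hmdef
  have hmt : ∀ i, F.te i = true → m i = false := by
    intro i hi; rw [hmdef]; simp only; rw [if_pos hi]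
  have hrow : ∀ m' j i, F.tl m' j i = true → 1 ≤ i ∧ i ≤ 2 * F.h ∧ F.te i = false := by
    intro m' j i h
    unfold tl at h
    rw [Bool.or_eq_true, Bool.and_eq_true, Bool.and_eq_true] at h
    rcases h with h | h
    · exact hF.prow j i h.1
    · exact hF.nrow j i h.1
  have htl : ∀ j i, F.tl m0 j i = true → F.tl m j i = true := by
    intro j i h
    have hi := hrow m0 j i h
    have : m i = m0 i := by rw [hmdef]; simp only; rw [hi.2.2]; rfl
    unfold tl at h ⊢
    rw [this]
    exact h
  -- the true literals of the active clauses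
  have hact : ∀ j < F.k, ∀ e ≤ 2 * F.h, x j e = true → F.tm j (e + 1) = true →
      ∃ i ≤ e, F.tl m j i = true ∧ ∀ i', i ≤ i' → i' ≤ e → F.bl j i' = false := by
    intro j hj e he h1 h2
    obtain ⟨i, h3, h4, h5⟩ := hm0 j hj e he h1 h2
    exact ⟨i, h3, htl j i h4, h5⟩
  set P : ℕ → ℕ → Prop := fun i c => c % 9 = 7 ∧ c / 9 < F.k ∧ ∃ e ≤ 2 * F.h,
    x (c / 9) e = true ∧ F.tm (c / 9) (e + 1) = true ∧ i ≤ e ∧
    ∀ i', i < i' → i' ≤ e → F.tl m (c / 9) i' = false with hP
  have hP1 : ∀ i c e, c / 9 < F.k → e ≤ 2 * F.h → x (c / 9) e = true →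
      F.tm (c / 9) (e + 1) = true → i ≤ e →
      (∀ i', i < i' → i' ≤ e → F.tl m (c / 9) i' = false) →
      1 ≤ i ∧ ∀ i', i ≤ i' → i' ≤ e → F.bl (c / 9) i' = false := by
    intro i c e h1 h2 h3 h4 h5 h6
    obtain ⟨i0, g1, g2, g3⟩ := hact _ h1 e h2 h3 h4
    have g4 : i0 ≤ i := by
      by_contra g
      rw [h6 i0 (by omega) g1] at g2
      simp at g2
    have g5 := hrow _ _ _ g2
    exact ⟨by omega, fun i' g6 g7 => g3 i' (by omega) g7⟩
  have hP0 : ∀ i c, P i c → 1 ≤ i := by
    rintro i c ⟨h1, h2, e, h3, h4, h5, h6, h7⟩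
    exact (hP1 i c e h2 h3 h4 h5 h6 h7).1
  set z0 : ℕ → ℕ → Bool := fun i c => decide (P i c) with hz0
  have hz0t : ∀ i c, z0 i c = true ↔ P i c := fun i c => by rw [hz0]; simp only [decide_eq_true_eq]
  have hz0f : ∀ i c, z0 i c = false ↔ ¬ P i c := fun i c => by
    rw [hz0]; simp only [decide_eq_false_iff_not]
  have hup : ∀ i c, up z0 i c = true ↔ 1 ≤ i ∧ P (i - 1) c := by
    intro i c
    cases i with
    | zero => simp [up]
    | succ i =>
      change z0 i c = true ↔ _
      rw [hz0t, Nat.add_sub_cancel]
      exact ⟨fun h => ⟨by omega, h⟩, fun h => h.2⟩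
  have hlm : ∀ i c, F.board.lm m i c = xor (m i) (F.board.par i c) := fun _ _ => rfl
  have hM : F.board.M = 9 * F.k + 6 := rfl
  have hH : F.board.H = 2 * F.h + 2 := rfl
  have hh' : F.board.h = F.h := rfl
  have hblk : ∀ i c, F.board.blk i c = (decide (c % 9 = 7) && F.bl (c / 9) i) := fun _ _ => rfl
  have htmlm : ∀ i c, c % 9 = 7 → F.tm (c / 9) i = true → F.board.lm m i c = false := by
    intro i c hc ht
    have h1 := hF.tmte _ _ ht
    have h2 : F.nr (c / 9) i = false := by
      by_contra h
      rw [Bool.not_eq_false] at h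
      rw [(hF.nrow _ _ h).2.2] at h1
      simp at h1
    rw [hlm, par7 hF i hc, h2, hmt i h1]
    rfl
  refine ⟨m, fun c => decide (c % 9 = 0 ∨ c % 9 = 1 ∨ c % 9 = 3 ∨ c % 9 = 4),
    fun c => decide (c % 9 = 7), z0, ⟨?_, ?_, ?_, ?_, ?_, ?_, ?_, ?_, ?_, ?_, ?_, ?_⟩, ?_, ?_⟩
  · intro c _ hk i _
    rw [decide_eq_true_eq] at hk
    change F.lit i c = true
    unfold Fm.lit
    rw [if_pos hk]
  · intro c _ hk
    rw [decide_eq_true_eq] at hk
    rw [decide_eq_false_iff_not]
    omega
  · intro c _ hk i _
    rw [decide_eq_true_eq] at hk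
    rw [hblk, decide_eq_false (by omega)]
    rfl
  · intro e c hk
    exact absurd hk (by simp [a0])
  · intro c
    rw [hz0f]
    rintro ⟨h1, h2, e, h3, h4, h5, h6, h7⟩
    omega
  · intro i hi c hc
    by_cases h1 : 1 ≤ i ∧ P (i - 1) c
    · obtain ⟨h0, g1, g2, e, g3, g4, g5, g6, g7⟩ := h1
      by_cases hie : i ≤ e
      · left
        have h2 : z0 i c = true := (hz0t i c).2
          ⟨g1, g2, e, g3, g4, g5, hie, fun i' g8 g9 => g7 i' (by omega) g9⟩
        rw [h2, (hup i c).2 ⟨h0, g1, g2, e, g3, g4, g5, g6, g7⟩]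
      · obtain rfl : i = e + 1 := by omega
        by_cases h2 : P (e + 1) c
        · left
          rw [(hz0t _ c).2 h2, (hup _ c).2 ⟨h0, g1, g2, e, g3, g4, g5, g6, g7⟩]
        · right
          rw [lit7 _ g1, (hz0f _ c).2 h2, htmlm _ c g1 g5, g5]
          exact ⟨by simp, rfl⟩
    · have h2 : up z0 i c = false := by
        rw [← Bool.not_eq_true, hup]; exact h1
      by_cases h3 : P i c
      · right
        obtain ⟨g1, g2, e, g3, g4, g5, g6, g7⟩ := h3
        have h4 := (hP1 i c e g2 g3 g4 g5 g6 g7).1
        have h5 : F.tl m (c / 9) i = true := by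
          by_contra h5
          rw [Bool.not_eq_true] at h5
          apply h1
          refine ⟨h4, g1, g2, e, g3, g4, g5, by omega, fun i' g8 g9 => ?_⟩
          rcases Nat.lt_or_ge i i' with g10 | g10
          · exact g7 i' g10 g9
          · obtain rfl : i' = i := by omega
            exact h5
        have h6 := tl_rev _ _ (F.tm (c / 9) i) _ (hF.dis (c / 9) i) h5
        rw [lit7 _ g1, (hz0t _ c).2 ⟨g1, g2, e, g3, g4, g5, g6, g7⟩, hlm, par7 hF i g1]
        exact ⟨h6.1, h6.2.symm⟩
      · left
        rw [h2, (hz0f i c).2 h3]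
  · intro e he c hc h
    exact absurd h (by simp [a0])
  · intro i hi c hc hb
    rw [hblk, Bool.and_eq_true, decide_eq_true_eq] at hb
    obtain ⟨hc7, hb⟩ := hb
    constructor
    · rw [← Bool.not_eq_true, hup]
      rintro ⟨h0, g1, g2, e, g3, g4, g5, g6, g7⟩
      rcases Nat.lt_or_ge e i with h1 | h1
      · obtain rfl : i = e + 1 := by omega
        rw [(hF.blp _ _ hb).2.2] at g5
        simp at g5
      · have := (hP1 (i - 1) c e g2 g3 g4 g5 g6 g7).2 i (by omega) h1
        rw [hb] at this
        simp at this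
    · rw [hz0f]
      rintro ⟨g1, g2, e, g3, g4, g5, g6, g7⟩
      have := (hP1 i c e g2 g3 g4 g5 g6 g7).2 i le_rfl g6
      rw [hb] at this
      simp at this
  · intro c _ h i
    rw [decide_eq_false_iff_not] at h
    rw [hz0f]
    exact fun h1 => h h1.1
  · intro c
    rw [hz0f]
    intro h
    have := hP0 0 c h
    omega
  · intro i hi c hc h1 h2 h3 h4
    rw [hup] at h1
    obtain ⟨h0, g1, g2, e, g3, g4, g5, g6, g7⟩ := h1
    have h5 : F.tm (c / 9) i = false := by
      by_contra h
      rw [Bool.not_eq_false] at h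
      rw [htmlm i c g1 h] at h4
      simp at h4
    rw [lit7 i g1] at h3
    rw [hlm, par7 hF i g1] at h4
    have h6 := tl_bool _ _ _ _ h5 (hF.dis _ i) h3 h4
    rcases Nat.lt_or_ge e i with h7 | h7
    · obtain rfl : i = e + 1 := by omega
      rw [h5] at g5
      simp at g5
    · have h8 := g7 i (by omega) h7
      unfold tl at h8
      rw [h6] at h8
      simp at h8
  · intro c hc
    set q := (c + 1) / 9 with hq
    refine ⟨min c (9 * q), max c (9 * q + 6), min_le_left _ _, le_max_left _ _, ?_, ?_, ?_⟩
    · rw [max_le_iff]; omega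
    · intro e h1 h2
      rw [min_le_iff] at h1
      rw [lt_max_iff] at h2
      rw [decide_eq_false_iff_not]
      omega
    · intro i hi
      obtain ⟨p0, p1, -, p3, p4, -, -, -⟩ := par_block hF i q
      obtain ⟨p0', p1', -, p3', p4', -, -, -⟩ := par_block hF (i + 1) q
      have hodd : decide ((i + 1) % 2 = 1) = !(decide (i % 2 = 1)) := by
        rcases Nat.mod_two_eq_zero_or_one i with h | h
        · have : (i + 1) % 2 = 1 := by omega
          simp [h, this]
        · have : (i + 1) % 2 = 0 := by omega
          simp [h, this]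
      have key : ∀ t, t = 0 ∨ t = 1 ∨ t = 3 ∨ t = 4 → F.board.lm m i (9 * q + t) = true →
          F.board.lm m (i + 1) (9 * q + t) = false →
          ∃ e, min c (9 * q) ≤ e ∧ e < max c (9 * q + 6) ∧
            decide (e % 9 = 0 ∨ e % 9 = 1 ∨ e % 9 = 3 ∨ e % 9 = 4) = true ∧
            F.board.lm m i e = true ∧ F.board.lm m (i + 1) e = false := by
        intro t ht h1 h2
        refine ⟨9 * q + t, ?_, ?_, ?_, h1, h2⟩
        · rw [min_le_iff]; omega
        · rw [lt_max_iff]; omega
        · rw [decide_eq_true_eq]; omega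
      simp only [hlm] at key
      have k0 := key 0 (Or.inl rfl)
      have k1 := key 1 (Or.inr (Or.inl rfl))
      have k3 := key 3 (Or.inr (Or.inr (Or.inl rfl)))
      have k4 := key 4 (Or.inr (Or.inr (Or.inr rfl)))
      rw [Nat.add_zero, p0, p0'] at k0
      rw [p1, p1'] at k1
      rw [p3, p3', hodd] at k3
      rw [p4, p4', hodd] at k4
      simp only [hlm]
      cases e1 : m i with
      | true =>
        cases e2 : m (i + 1) with
        | true =>
          rw [e1, e2] at k3 k4
          cases e3 : decide (i % 2 = 1) with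
          | true => rw [e3] at k4; exact k4 rfl rfl
          | false => rw [e3] at k3; exact k3 rfl rfl
        | false => rw [e1, e2] at k0; exact k0 rfl rfl
      | false =>
        cases e2 : m (i + 1) with
        | true => rw [e1, e2] at k1; exact k1 rfl rfl
        | false =>
          rw [e1, e2] at k3 k4
          cases e3 : decide (i % 2 = 1) with
          | true => rw [e3] at k3; exact k3 rfl rfl
          | false => rw [e3] at k4; exact k4 rfl rfl
  · intro c hc
    rw [decide_eq_false_iff_not]
    omega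
  · intro c h1 h2 e h3 h4 h5
    cases hx : x (c / 9) e with
    | true =>
      rw [hz0t]
      exact ⟨h1, h2, e, h3, hx, h4, le_rfl, fun i' g1 g2 => by omega⟩
    | false =>
      rw [hz0f]
      rintro ⟨-, -, e', g3, g4, g5, -⟩
      rw [h5 e' g3 g5, hx] at g4
      simp at g4

end Pool.Agent.T9h21.SD
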