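import Pool.Agent.T9h21.SD.Tours

set_option autoImplicit false

/-!
# The lengths of tours through displaced points
-/

namespace Pool.Agent.T9h21.SD

open Finset
open Pool.Agent.ETSP (pl tl)
open Pool.Agent.T9h21.TB

theorem pl_lin {V : Type} {d d' rr : V → V → ℝ} {K : ℝ} (h : ∀ v w, K * d v w - rr v w ≤ d' v w)
    (l : List V) : ∀ a b, K * pl d a l b - pl rr a l b ≤ pl d' a l b := by
  induction l with
  | nil => intro a b; exact h a b
  | cons x l ih =>
    intro a b
    simp only [pl]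
    linarith [h a x, ih x b]

theorem tl_lin {V : Type} {d d' rr : V → V → ℝ} {K : ℝ} (h : ∀ v w, K * d v w - rr v w ≤ d' v w)
    (l : List V) : K * tl d l - tl rr l ≤ tl d' l := by
  cases l with
  | nil => simp [tl]
  | cons a l => exact pl_lin h l a a

section

variable {V : Type} [DecidableEq V] {P : V → Prop} {pos : V → ℤ × ℤ} {rad : V → ℤ}
  {D : Finset V} {K : ℕ}

/-- the positions, scaled by `K`; the points in `D` are moved down by one -/
def ps (K : ℕ) (pos : V → ℤ × ℤ) (D : Finset V) (v : V) : ℤ × ℤ :=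
  (K * (pos v).1, K * (pos v).2 - if v ∈ D then 1 else 0)

theorem dst_sc (p q : ℤ × ℤ) : dst (K * p.1, K * p.2) (K * q.1, K * q.2) = K * dst p q := by
  unfold dst
  rw [show (((K * p.1 - K * q.1 : ℤ) : ℝ) ^ 2 + ((K * p.2 - K * q.2 : ℤ) : ℝ) ^ 2) =
    (K : ℝ) ^ 2 * (((p.1 - q.1 : ℤ) : ℝ) ^ 2 + ((p.2 - q.2 : ℤ) : ℝ) ^ 2) by push_cast; ring,
    Real.sqrt_mul (by positivity), Real.sqrt_sq (by positivity)]

theorem dst_ver (a b c : ℤ) (h : 0 ≤ b - a) : dst (c, a) (c, b) = ((b - a : ℤ) : ℝ) := by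
  unfold dst
  have h1 : (0 : ℝ) ≤ ((b - a : ℤ) : ℝ) := by exact_mod_cast h
  rw [show (((c, a).1 - (c, b).1 : ℤ) : ℝ) ^ 2 + (((c, a).2 - (c, b).2 : ℤ) : ℝ) ^ 2 =
    ((b - a : ℤ) : ℝ) ^ 2 by push_cast; ring, Real.sqrt_sq h1]

theorem dst_ps0 {v w : V} (hv : v ∉ D) (hw : w ∉ D) :
    dst (ps K pos D v) (ps K pos D w) = K * dst (pos v) (pos w) := by
  unfold ps
  rw [if_neg hv, if_neg hw, sub_zero, sub_zero, dst_sc]

theorem dst_ps1 (v w : V) : K * dst (pos v) (pos w) - ((if v ∈ D then 1 else 0) +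
    (if w ∈ D then 1 else 0)) ≤ dst (ps K pos D v) (ps K pos D w) := by
  have h1 : ∀ u, dst (K * (pos u).1, K * (pos u).2) (ps K pos D u) = if u ∈ D then 1 else 0 := by
    intro u
    unfold ps
    rw [dst_comm, dst_ver _ _ _ (by split_ifs <;> omega)]
    split_ifs <;> push_cast <;> ring
  have h2 := dst_tri (K * (pos v).1, K * (pos v).2) (ps K pos D v) (K * (pos w).1, K * (pos w).2)
  have h3 := dst_tri (ps K pos D v) (ps K pos D w) (K * (pos w).1, K * (pos w).2)
  rw [dst_sc, h1] at h2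
  rw [dst_comm (ps K pos D w), h1] at h3
  linarith

theorem tight_or (h : Pack P pos rad) {l : List V} (hl : l.Nodup) (hm : ∀ v, v ∈ l ↔ P v) :
    Cyc P (Tch pos rad) l.formPerm ∨
      2 * (h.tot : ℝ) + 1 / 69 ≤ tl (fun v w => dst (pos v) (pos w)) l := by
  by_cases ht : 2 * (h.tot : ℝ) + 1 / 69 ≤ tl (fun v w => dst (pos v) (pos w)) l
  · exact Or.inr ht
  left
  rw [not_le] at ht
  obtain ⟨a0, b0, c0, ha, hb, hc, hab, hac, hbc⟩ := h.three
  have h3 : 3 ≤ l.length := by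
    have h8 : [a0, b0, c0].Nodup := by simp [hab, hac, hbc]
    have h9 : [a0, b0, c0] ⊆ l := by
      intro v hv
      rw [hm]
      simp only [List.mem_cons, List.not_mem_nil, or_false] at hv
      rcases hv with rfl | rfl | rfl <;> assumption
    exact (h8.subperm h9).length_le
  have hC := cyc_of_list (d := fun v w => dst (pos v) (pos w)) (r := fun v => (rad v : ℝ))
    (P := P) hl h3 hm (fun v w hv hw hne => by
      have k1 : (0 : ℝ) ≤ rad v := by exact_mod_cast h.nn v hv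
      have k2 : (0 : ℝ) ≤ rad w := by exact_mod_cast h.nn w hw
      have k3 : (0 : ℝ) ≤ ((dd (pos v) (pos w) : ℤ) : ℝ) := by exact_mod_cast dd_nonneg _ _
      rw [dst_eucl, eucl_eq, Real.le_sqrt (by positivity) k3]
      exact_mod_cast h.sep v w hv hw hne) (γ := 1 / 69) (by
      rw [h.sum_eq hl hm]
      exact ht)
  refine ⟨hC.val, hC.inv, fun v hv => h.tch hv (hC.val v hv) ?_, hC.ne, hC.ne2, hC.conn⟩
  rw [← dst_eucl]
  exact hC.tight v hv

/-- tours with a step that is not tight -/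
theorem cost_far (h : Pack P pos rad) (hD : ∀ v ∈ D, P v) {l : List V} (hl : l.Nodup)
    (hm : ∀ v, v ∈ l ↔ P v)
    (ht : 2 * (h.tot : ℝ) + 1 / 69 ≤ tl (fun v w => dst (pos v) (pos w)) l) :
    K * (2 * (h.tot : ℝ) + 1 / 69) - 2 * (#D : ℝ) ≤
      tl (fun v w => dst (ps K pos D v) (ps K pos D w)) l := by
  have h1 := tl_lin (K := K) (d := fun v w => dst (pos v) (pos w))
    (rr := fun v w => (fun u : V => if u ∈ D then (1 : ℝ) else 0) v +
      (fun u : V => if u ∈ D then (1 : ℝ) else 0) w)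
    (d' := fun v w => dst (ps K pos D v) (ps K pos D w)) (fun v w => dst_ps1 v w) l
  rw [tl_rr] at h1
  have h2 : (l.map fun u : V => if u ∈ D then (1 : ℝ) else 0).sum = #D := by
    rw [← List.sum_toFinset _ hl, Finset.sum_ite_mem, Finset.sum_const, nsmul_eq_mul, mul_one]
    congr 2
    rw [Finset.inter_eq_right]
    intro v hv
    rw [List.mem_toFinset, hm]
    exact hD v hv
  rw [h2] at h1
  have h3 := mul_le_mul_of_nonneg_left ht (Nat.cast_nonneg (α := ℝ) K)
  linarith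

omit [DecidableEq V] in
theorem sum_shift {M : Type} [AddCommMonoid M] {U : Finset V} {σ : Equiv.Perm V}
    (h1 : ∀ v ∈ U, σ v ∈ U) (h2 : ∀ v ∈ U, σ⁻¹ v ∈ U) (g : V → M) :
    ∑ v ∈ U, g (σ v) = ∑ v ∈ U, g v :=
  Finset.sum_nbij' (fun v => σ v) (fun v => σ⁻¹ v) h1 h2
    (fun v _ => Equiv.symm_apply_apply σ v) (fun v _ => Equiv.apply_symm_apply σ v)
    (fun _ _ => rfl)

theorem tch_eq (h : Pack P pos rad) {v w : V} (hv : P v) (hw : P w) (hne : v ≠ w)
    (ht : Tch pos rad v w) : dst (pos v) (pos w) = rad v + rad w := by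
  have k1 : (0 : ℝ) ≤ rad v := by exact_mod_cast h.nn v hv
  have k2 : (0 : ℝ) ≤ rad w := by exact_mod_cast h.nn w hw
  have h1 : dd (pos v) (pos w) = (rad v + rad w) ^ 2 := le_antisymm ht (h.sep v w hv hw hne)
  rw [dst_eucl, eucl_eq, h1]
  push_cast
  exact Real.sqrt_sq (by positivity)

/-- the excess of the distance from a displaced point -/
noncomputable def exc (K : ℕ) (pos : V → ℤ × ℤ) (rad : V → ℤ) (D : Finset V) (v w : V) : ℝ :=
  dst (ps K pos D v) (ps K pos D w) - K * (rad v + rad w)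

theorem exc_comm (v w : V) : exc K pos rad D v w = exc K pos rad D w v := by
  unfold exc
  rw [dst_comm, add_comm]

/-- tight tours -/
theorem cost_tight (h : Pack P pos rad) (hD : ∀ v ∈ D, P v) {l : List V} (hl : l.Nodup)
    (hm : ∀ v, v ∈ l ↔ P v) (hC : Cyc P (Tch pos rad) l.formPerm)
    (hadj : ∀ v ∈ D, l.formPerm v ∉ D) :
    tl (fun v w => dst (ps K pos D v) (ps K pos D w)) l = K * (2 * (h.tot : ℝ)) +
      ∑ v ∈ D, (exc K pos rad D v (l.formPerm v) + exc K pos rad D v (l.formPerm⁻¹ v)) := by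
  set σ := l.formPerm with hσ
  have hU : l.toFinset = h.fin.toFinset := by
    ext v
    simp [hm]
  have hin : ∀ v, v ∈ h.fin.toFinset ↔ P v := fun v => by simp
  have s1 : ∀ v ∈ h.fin.toFinset, σ v ∈ h.fin.toFinset := fun v hv =>
    (hin _).2 (hC.val v ((hin _).1 hv))
  have s2 : ∀ v ∈ h.fin.toFinset, σ⁻¹ v ∈ h.fin.toFinset := fun v hv =>
    (hin _).2 (hC.inv v ((hin _).1 hv))
  have hDU : D ⊆ h.fin.toFinset := fun v hv => (hin v).2 (hD v hv)
  have h1 : ∀ v ∈ h.fin.toFinset, dst (ps K pos D v) (ps K pos D (σ v)) =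
      K * (rad v) + K * (rad (σ v)) + ((if v ∈ D then exc K pos rad D v (σ v) else 0) +
        (if σ v ∈ D then exc K pos rad D (σ v) (σ⁻¹ (σ v)) else 0)) := by
    intro v hv
    have hv' := (hin v).1 hv
    have e : σ⁻¹ (σ v) = v := Equiv.symm_apply_apply σ v
    rw [e]
    by_cases g1 : v ∈ D
    · rw [if_pos g1, if_neg (hadj v g1)]
      unfold exc
      ring
    · rw [if_neg g1]
      by_cases g2 : σ v ∈ D
      · rw [if_pos g2, exc_comm]
        unfold exc
        ring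
      · rw [if_neg g2, dst_ps0 g1 g2, tch_eq h hv' (hC.val v hv') (Ne.symm (hC.ne v hv'))
          (hC.tight v hv')]
        ring
  rw [tl_eq_sum _ hl, ← List.sum_toFinset _ hl, hU, Finset.sum_congr rfl h1,
    Finset.sum_add_distrib, Finset.sum_add_distrib, Finset.sum_add_distrib,
    sum_shift s1 s2 (fun v => (K : ℝ) * (rad v : ℝ)),
    sum_shift s1 s2 (fun w => if w ∈ D then exc K pos rad D w (σ⁻¹ w) else 0),
    Finset.sum_ite_mem, Finset.sum_ite_mem, Finset.inter_eq_right.2 hDU, Finset.sum_add_distrib,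
    ← Finset.mul_sum]
  have h2 : ∑ v ∈ h.fin.toFinset, (rad v : ℝ) = (h.tot : ℝ) := by
    unfold Pack.tot
    push_cast
    rfl
  rw [h2]
  ring

/-- two neighbours in a list of possible neighbours -/
theorem two_nb {R : V → V → Prop} {σ : Equiv.Perm V} (hC : Cyc P R σ) {v : V} (hv : P v)
    {L : List V} (hL : L.Nodup) (h1 : σ v ∈ L) (h2 : σ⁻¹ v ∈ L) (f : V → ℝ) :
    f (σ v) + f (σ⁻¹ v) = (L.map fun w => (us σ v w : ℝ) * f w).sum := by
  rw [← List.sum_toFinset _ hL]
  simp only [us_eq]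
  have h3 : ({σ v, σ⁻¹ v} : Finset V) ⊆ L.toFinset := by
    intro w hw
    simp only [Finset.mem_insert, Finset.mem_singleton] at hw
    rw [List.mem_toFinset]
    rcases hw with rfl | rfl <;> assumption
  have h4 : ∀ w, ((if w ∈ ({σ v, σ⁻¹ v} : Finset V) then (1 : ℕ) else 0 : ℕ) : ℝ) * f w =
      if w ∈ ({σ v, σ⁻¹ v} : Finset V) then f w else 0 := by
    intro w
    split_ifs <;> simp
  simp only [h4]
  rw [Finset.sum_ite_mem, Finset.inter_eq_right.2 h3, Finset.sum_pair (hC.inv_ne hv)]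

end

end Pool.Agent.T9h21.SD
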