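import Pool.Agent.T9h21.SD.Cost
import Pool.Agent.T9h21.TB.Form

set_option autoImplicit false

/-!
# Displaced boards
-/

namespace Pool.Agent.T9h21.SD

open Finset
open Pool.Agent.ETSP (pl tl)
open Pool.Agent.T9h21.TB Pool.Agent.T9h21.TB.Board

/-- no activated pairs -/
def a0 : ℕ → ℕ → Bool := fun _ _ => false

variable {b : Board}

theorem packB (hM : 1 ≤ b.M) : Pack (b.Val a0) b.pos b.rad := by
  have hH : b.H = 2 * b.h + 2 := rfl
  refine ⟨val_fin, fun v _ => rad_nonneg v, fun v hv => rad_le v hv, fun v w hv hw hne =>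
    (cls hM hv hw hne).1, fun v w hv hw h => pos_inj hM hv hw h,
    .S 0 false, .S 0 true, .C 0 false, ?_, ?_, ?_, by simp, by simp, by simp⟩
  · change 0 < b.H; omega
  · change 0 < b.H; omega
  · change 0 < b.H; omega

/-- the displaced node of pair `c` below row `e` -/
def dn (e c : ℕ) : Nd := .X e (2 * c + 1) 0 false

/-- the node below it -/
def dv (e c : ℕ) : Nd := .X (e + 1) (2 * c + 1) 0 true

theorem dn_inj {e c c' : ℕ} (h : dn e c = dn e c') : c = c' := by
  unfold dn at h
  simp at h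
  exact h

/-- a pair that passes straight through row `e` -/
structure Str (b : Board) (e c : ℕ) : Prop where
  he : e ≤ 2 * b.h
  hc : c < b.M
  hc1 : 1 ≤ c
  lit : b.lit e c = false
  blk : b.blk e c = false

theorem Str.val {e c : ℕ} (h : Str b e c) : b.Val a0 (dn e c) := by
  have hH : b.H = 2 * b.h + 2 := rfl
  have := h.he
  have := h.hc
  exact ⟨by omega, by omega, Nat.zero_le _, fun _ => by omega⟩

theorem nb_dn {e c : ℕ} (h : Str b e c) : b.nb a0 (dn e c) =
    [.X e (2 * c) 11 false, .X e (2 * c + 1) 1 false, .X e (2 * c + 1) 0 true, dv e c] := by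
  have hc := h.hc
  have h1 := h.hc1
  have hM : 1 ≤ b.M := by omega
  unfold dn dv
  rw [nb_wire]
  have h2 : b.lf e (2 * c + 1) 0 false = .X e (2 * c) 11 false := by
    unfold lf
    rw [if_pos rfl, Nat.add_sub_cancel, len_even hM, if_neg (by omega)]
  have h3 : b.rt e (2 * c + 1) 0 false = .X e (2 * c + 1) 1 false := by
    unfold rt
    rw [if_pos (by have := b.two_le_len e (2 * c + 1); omega)]
  rw [h2, h3]
  unfold qN vert aN a0
  rw [show (2 * c + 1 - 1) / 2 = c by omega, h.blk]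
  have h4 : ¬ e = 2 * b.h + 1 := by have := h.he; omega
  simp [h4]

theorem dn_nb {e c c' : ℕ} (h : Str b e c) : dn e c' ∉ b.nb a0 (dn e c) := by
  rw [nb_dn h]
  simp [dn, dv]

section

variable {A : Nd → Nd → Prop}

theorem sum_dn (hM : 1 ≤ b.M) (hC : Loc b a0 A) {e c : ℕ} (h : Str b e c) :
    ua A (dn e c) (.X e (2 * c) 11 false) + ua A (dn e c) (.X e (2 * c + 1) 1 false) = 1 ∧
    ua A (dn e c) (.X e (2 * c + 1) 0 true) + ua A (dn e c) (dv e c) = 1 ∧
    vt b a0 A e (2 * c + 1) false = ua A (dn e c) (dv e c) := by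
  have hH : b.H = 2 * b.h + 2 := rfl
  have he := h.he
  have hc := h.hc
  have hc1 := h.hc1
  have hi : e < b.H := by omega
  have hv : ∀ s, b.Val a0 (.X e (2 * c + 1) 0 s) := fun s =>
    ⟨hi, by omega, Nat.zero_le _, fun _ => by omega⟩
  have h1 := fun s => s_nb hC (hv s) rfl (nodup_wire _ _ _ (by omega))
  have hq : b.qN e (2 * c + 1) = [] := by
    unfold qN
    rw [show (2 * c + 1 - 1) / 2 = c by omega, h.blk]
    simp
  have h3 : ∀ s, lam b A e c s + gp b A e (2 * c + 1) 0 s +
      ua A (.X e (2 * c + 1) 0 s) (.X e (2 * c + 1) 0 (!s)) + vt b a0 A e (2 * c + 1) s = 2 := by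
    intro s
    have h3 := h1 s
    rw [nb_wire, hq] at h3
    simp only [List.map_cons, List.sum_cons, List.nil_append] at h3
    rw [us_lf (hv s), us_rt (hv s), if_pos rfl, Nat.add_sub_cancel] at h3
    unfold vt lam
    omega
  have h4 := h3 true
  have h5 := h3 false
  have h6 : ua A (.X e (2 * c + 1) 0 true) (.X e (2 * c + 1) 0 (!true)) =
      ua A (.X e (2 * c + 1) 0 false) (.X e (2 * c + 1) 0 (!false)) := by
    rw [ua_comm]; rfl
  rw [h6] at h4
  have h7 := lam_sum hM hC hi hc.le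
  have h8 : 3 ≤ b.len e (2 * c + 1) := by
    rw [len_odd hc, h.lit]; simp
  have h9 := gp_sum hM hC hi (n := 2 * c + 1) (by omega) h8
  have g1 := vt_le hM hC hi (n := 2 * c + 1) (by omega) (by omega) true
  have g2 := vt_le hM hC hi (n := 2 * c + 1) (by omega) (by omega) false
  have g3 := ua_le (A := A) (.X e (2 * c + 1) 0 false) (.X e (2 * c + 1) 0 (!false))
  have g4 : ua A (dn e c) (.X e (2 * c) 11 false) = lam b A e c false := by
    have := us_lf (A := A) (hv false)
    rw [if_pos rfl, Nat.add_sub_cancel] at this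
    unfold lam
    rw [← this]
    congr 1
    unfold lf
    rw [if_pos rfl, Nat.add_sub_cancel, len_even hM, if_neg (by omega)]
  have g5 : ua A (dn e c) (.X e (2 * c + 1) 1 false) = gp b A e (2 * c + 1) 0 false := by
    have := us_rt (A := A) (hv false)
    rw [← this]
    congr 1
    unfold rt
    rw [if_pos (by omega)]
  have g6 : vt b a0 A e (2 * c + 1) false = ua A (dn e c) (dv e c) := by
    unfold vt vert aN a0 dn dv
    have : ¬ e = 2 * b.h + 1 := by omega
    simp [this]
  have g7 : ua A (.X e (2 * c + 1) 0 false) (.X e (2 * c + 1) 0 (!false)) =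
      ua A (dn e c) (.X e (2 * c + 1) 0 true) := rfl
  rw [g7] at h4 h5 g3
  rw [← g6, g4, g5]
  omega

/-- the value of the distances at the sides of a displaced node -/
noncomputable def kap (K : ℕ) : ℝ := Real.sqrt ((6 * K : ℝ) ^ 2 + (8 * K + 1 : ℝ) ^ 2)

theorem exc_dn {K : ℕ} (hK : 1 ≤ K) {D : Finset Nd} {e c : ℕ} (h : Str b e c) (hD : dn e c ∈ D)
    (hD' : ∀ w ∈ b.nb a0 (dn e c), w ∉ D) :
    exc K b.pos b.rad D (dn e c) (.X e (2 * c) 11 false) = kap K - 10 * K ∧
    exc K b.pos b.rad D (dn e c) (.X e (2 * c + 1) 1 false) = kap K - 10 * K ∧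
    exc K b.pos b.rad D (dn e c) (.X e (2 * c + 1) 0 true) = 1 ∧
    exc K b.pos b.rad D (dn e c) (dv e c) = -1 := by
  have hc := h.hc
  have hc1 := h.hc1
  rw [nb_dn h] at hD'
  have t1 : b.ty e (2 * c) = .O := by
    unfold ty
    rw [if_neg (by omega), if_neg (by omega), if_neg (by omega)]
  have t2 : b.ty e (2 * c + 1) = .O := by
    unfold ty
    rw [if_neg (by omega), if_neg (by omega), if_neg]
    rw [show (2 * c + 1) / 2 = c by omega, h.lit]
    simp
  have t3 := ft_zero (b.ty (e + 1) (2 * c + 1))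
  have hK' : (1 : ℤ) ≤ K := by exact_mod_cast hK
  refine ⟨?_, ?_, ?_, ?_⟩
  · unfold exc ps
    rw [if_pos hD, if_neg (hD' _ (by simp))]
    simp only [pos, dn, px, py, rad, xx, sz, t1, FT.off, FT.sz, sg]
    unfold dst kap
    push_cast
    congr 1
    · congr 1
      ring
    · norm_num
      ring
  · unfold exc ps
    rw [if_pos hD, if_neg (hD' _ (by simp))]
    simp only [pos, dn, px, py, rad, xx, sz, t2, FT.off, FT.sz, sg]
    unfold dst kap
    push_cast
    congr 1
    · congr 1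
      ring
    · norm_num
      ring
  · unfold exc ps
    rw [if_pos hD, if_neg (hD' _ (by simp))]
    simp only [pos, dn, px, py, rad, xx, sz, t2, FT.off, FT.sz, sg]
    simp only [Bool.false_eq_true, if_false, if_true]
    rw [dst_ver _ _ _ (by nlinarith)]
    push_cast
    ring
  · unfold exc ps
    rw [if_pos hD, if_neg (hD' _ (by simp))]
    simp only [pos, dn, dv, px, py, rad, xx, sz, t2, t3.1, t3.2, FT.off, FT.sz, sg]
    simp only [Bool.false_eq_true, if_false, if_true]
    rw [dst_comm, dst_ver _ _ _ (by push_cast; nlinarith)]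
    push_cast
    ring

end

/-- the displaced nodes of the pairs in `C` -/
def dset (e : ℕ) (C : Finset ℕ) : Finset Nd := C.image (dn e)

/-- The length of a tight tour through a displaced board. -/
theorem cost_board (hM : 1 ≤ b.M) {K : ℕ} (hK : 1 ≤ K) {e : ℕ} {C : Finset ℕ}
    (hC : ∀ c ∈ C, Str b e c) {l : List Nd} (hl : l.Nodup) (hm : ∀ v, v ∈ l ↔ b.Val a0 v)
    (hT : Cyc (b.Val a0) b.Tight l.formPerm) :
    tl (fun v w => dst (ps K b.pos (dset e C) v) (ps K b.pos (dset e C) w)) l =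
      K * (2 * ((packB hM).tot : ℝ)) + #C * (kap K - 10 * K + 1) -
        2 * ∑ c ∈ C, (us l.formPerm (dn e c) (dv e c) : ℝ) := by
  have hmem : ∀ v ∈ dset e C, ∃ c, c ∈ C ∧ dn e c = v := by
    intro v hv
    unfold dset at hv
    rw [Finset.mem_image] at hv
    exact hv
  have hD : ∀ v ∈ dset e C, b.Val a0 v := by
    intro v hv
    obtain ⟨c, hc, rfl⟩ := hmem v hv
    exact (hC c hc).val
  have hnb : ∀ c ∈ C, ∀ w ∈ b.nb a0 (dn e c), w ∉ dset e C := by
    intro c hc w hw hw'
    obtain ⟨c', hc', rfl⟩ := hmem w hw'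
    exact dn_nb (hC c hc) hw
  have hL := loc_of_cyc hM hT
  rw [cost_tight (packB hM) hD hl hm hT (fun v hv => by
    obtain ⟨c, hc, rfl⟩ := hmem v hv
    exact hnb c hc _ (nb_mem hM hT (hC c hc).val).1)]
  unfold dset
  rw [Finset.sum_image (fun c _ c' _ h => dn_inj h)]
  have key : ∀ c ∈ C, exc K b.pos b.rad (C.image (dn e)) (dn e c) (l.formPerm (dn e c)) +
      exc K b.pos b.rad (C.image (dn e)) (dn e c) (l.formPerm⁻¹ (dn e c)) =
      (kap K - 10 * K + 1) - 2 * (us l.formPerm (dn e c) (dv e c) : ℝ) := by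
    intro c hc
    have g := hC c hc
    obtain ⟨k1, k2⟩ := nb_mem hM hT g.val
    rw [two_nb hT g.val (nodup_nb g.val) k1 k2]
    obtain ⟨e1, e2, e3, e4⟩ := exc_dn (b := b) hK g (D := C.image (dn e))
      (Finset.mem_image_of_mem _ hc) (hnb c hc)
    rw [nb_dn g]
    simp only [List.map_cons, List.map_nil, List.sum_cons, List.sum_nil, e1, e2, e3, e4]
    obtain ⟨s1, s2, -⟩ := sum_dn hM hL g
    simp only [ua_perm] at s1 s2
    have s1' : (us l.formPerm (dn e c) (.X e (2 * c) 11 false) : ℝ) +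
        us l.formPerm (dn e c) (.X e (2 * c + 1) 1 false) = 1 := by exact_mod_cast s1
    have s2' : (us l.formPerm (dn e c) (.X e (2 * c + 1) 0 true) : ℝ) +
        us l.formPerm (dn e c) (dv e c) = 1 := by exact_mod_cast s2
    linear_combination (kap K - 10 * K) * s1' + s2'
  rw [Finset.sum_congr rfl key, Finset.sum_sub_distrib, Finset.sum_const, nsmul_eq_mul,
    ← Finset.mul_sum]
  ring

theorem kap_le (K : ℕ) : kap K ≤ 10 * K + 1 := by
  unfold kap
  rw [Real.sqrt_le_left (by positivity)]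
  nlinarith [(Nat.cast_nonneg K : (0 : ℝ) ≤ K)]

/-- Every tour through a displaced board is tight or long. -/
theorem board_or (hM : 1 ≤ b.M) {K : ℕ} {e : ℕ} {C : Finset ℕ} (hK : 552 * #C ≤ 2 * K)
    (hC : ∀ c ∈ C, Str b e c) {l : List Nd} (hl : l.Nodup) (hm : ∀ v, v ∈ l ↔ b.Val a0 v) :
    Cyc (b.Val a0) b.Tight l.formPerm ∨ K * (2 * ((packB hM).tot : ℝ)) +
      #C * (kap K - 10 * K + 1) ≤
      tl (fun v w => dst (ps K b.pos (dset e C) v) (ps K b.pos (dset e C) w)) l := by
  rcases tight_or (packB hM) hl hm with h | h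
  · exact Or.inl h
  right
  have hD : ∀ v ∈ dset e C, b.Val a0 v := by
    intro v hv
    unfold dset at hv
    obtain ⟨c, hc, rfl⟩ := Finset.mem_image.1 hv
    exact (hC c hc).val
  have h1 := cost_far (K := K) (packB hM) hD hl hm h
  have h2 : #(dset e C) = #C := Finset.card_image_of_injective _ fun c c' h => dn_inj h
  rw [h2] at h1
  have h3 := kap_le K
  have h4 : (552 : ℝ) * #C ≤ 2 * K := by exact_mod_cast hK
  have h5 : (0 : ℝ) ≤ #C := Nat.cast_nonneg _
  have h6 : (#C : ℝ) * (kap K - 10 * K + 1) ≤ #C * 2 :=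
    mul_le_mul_of_nonneg_left (by linarith) h5
  linarith

end Pool.Agent.T9h21.SD
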