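import Pool.Agent.T9h21.SD.Plc

set_option autoImplicit false

/-!
# The board of all clauses with two variables
-/

namespace Pool.Agent.T9h21.SD

open Finset
open Pool.Agent.T9h21.TB Pool.Agent.T9h21.TB.Board
open Pool.Agent.TH661.LRS (res kf wt)

/-- All clauses with two positive or two negative literals of `Nv` variables; the row `Nv + 1`
is not used by variables. -/
def SF (Nv : ℕ) : Fm where
  h := Nv + 2
  k := 2 * (Nv * Nv)
  pr := fun j i => decide (j % 2 = 0 ∧ 1 ≤ i ∧ i ≤ Nv ∧ (i = 1 + j / 2 / Nv ∨ i = 1 + j / 2 % Nv))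
  nr := fun j i => decide (j % 2 = 1 ∧ 1 ≤ i ∧ i ≤ Nv ∧ (i = 1 + j / 2 / Nv ∨ i = 1 + j / 2 % Nv))
  tm := fun _ i => decide (i = Nv + 2)
  bl := fun _ i => decide (i = Nv + 3)
  te := fun i => decide (Nv + 1 ≤ i)

theorem SF_ok (Nv : ℕ) : (SF Nv).OK := by
  refine ⟨?_, ?_, ?_, ?_, ?_, ?_⟩ <;> simp only [SF, decide_eq_true_eq, decide_eq_false_iff_not]
  · rintro j i ⟨h, -⟩ ⟨h', -⟩
    omega
  · rintro j i ⟨h, h1, h2, h3⟩
    omega
  · rintro j i ⟨h, h1, h2, h3⟩
    omega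
  · rintro j i h
    omega
  · rintro j i h
    refine ⟨?_, ?_, ?_⟩ <;> omega
  · rintro j i h -
    omega

/-- whether clause `j` is satisfied -/
def cs (Nv : ℕ) (α : ℕ → Bool) (j : ℕ) : Bool :=
  if j % 2 = 0 then (α (j / 2 / Nv) || α (j / 2 % Nv))
  else (!(α (j / 2 / Nv)) || !(α (j / 2 % Nv)))

theorem tl_cs {Nv : ℕ} {α m : ℕ → Bool} {j : ℕ} (hj : j < 2 * (Nv * Nv))
    (hα : ∀ u < Nv, m (1 + u) = α u) :
    (∃ i ≤ Nv + 1, (SF Nv).tl m j i = true) ↔ cs Nv α j = true := by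
  have hN : 0 < Nv := by
    rcases Nat.eq_zero_or_pos Nv with rfl | h
    · simp at hj
    · exact h
  have hj2 : j / 2 < Nv * Nv := by omega
  have hu : j / 2 / Nv < Nv := Nat.div_lt_of_lt_mul hj2
  have hv : j / 2 % Nv < Nv := Nat.mod_lt _ hN
  have au := hα _ hu
  have av := hα _ hv
  set u := j / 2 / Nv with hudef
  set v := j / 2 % Nv with hvdef
  unfold cs Fm.tl SF
  simp only [← hudef, ← hvdef]
  rcases Nat.mod_two_eq_zero_or_one j with h0 | h0
  · simp only [h0, if_true, true_and]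
    have h01 : ¬ (0 : ℕ) = 1 := by omega
    simp only [h01, false_and, decide_false, Bool.false_and, Bool.or_false, Bool.and_eq_true,
      decide_eq_true_eq, Bool.or_eq_true]
    constructor
    · rintro ⟨i, -, ⟨h1, h2, h3 | h3⟩, h4⟩
      · left; rw [← au, ← h3]; exact h4
      · right; rw [← av, ← h3]; exact h4
    · rintro (h | h)
      · exact ⟨1 + u, by omega, ⟨Nat.le_add_right 1 u, by omega, Or.inl rfl⟩, by rw [au]; exact h⟩
      · exact ⟨1 + v, by omega, ⟨Nat.le_add_right 1 v, by omega, Or.inr rfl⟩, by rw [av]; exact h⟩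
  · simp only [h0, true_and]
    have h01 : ¬ (1 : ℕ) = 0 := by omega
    simp only [h01, false_and, decide_false, Bool.false_and, Bool.false_or, Bool.and_eq_true,
      decide_eq_true_eq, Bool.or_eq_true, if_false, Bool.not_eq_true']
    constructor
    · rintro ⟨i, -, ⟨h1, h2, h3 | h3⟩, h4⟩
      · left; rw [← au, ← h3]; exact h4
      · right; rw [← av, ← h3]; exact h4
    · rintro (h | h)
      · exact ⟨1 + u, by omega, ⟨Nat.le_add_right 1 u, by omega, Or.inl rfl⟩, by rw [au]; exact h⟩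
      · exact ⟨1 + v, by omega, ⟨Nat.le_add_right 1 v, by omega, Or.inr rfl⟩, by rw [av]; exact h⟩

theorem SF_sat (Nv : ℕ) (α : ℕ → Bool) : (SF Nv).Sat (fun j _ => cs Nv α j) := by
  refine ⟨fun i => α (i - 1), fun j hj e _ h1 h2 => ?_⟩
  have he : e = Nv + 1 := by
    simp only [SF, decide_eq_true_eq] at h2
    omega
  subst he
  obtain ⟨i, h3, h4⟩ := (tl_cs (m := fun i => α (i - 1)) hj (fun u _ => by
    rw [Nat.add_sub_cancel_left])).2 h1
  refine ⟨i, h3, h4, fun i' _ h5 => ?_⟩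
  simp only [SF, decide_eq_false_iff_not]
  omega

theorem SF_of_sat {Nv : ℕ} {x : ℕ → ℕ → Bool} (h : (SF Nv).Sat x) :
    ∃ α : ℕ → Bool, ∀ j < 2 * (Nv * Nv), x j (Nv + 1) = true → cs Nv α j = true := by
  obtain ⟨m, hm⟩ := h
  refine ⟨fun u => m (1 + u), fun j hj hx => ?_⟩
  have h1 := hm j hj (Nv + 1) (by change Nv + 1 ≤ 2 * (Nv + 2); omega) hx (by simp [SF])
  obtain ⟨i, h2, h3, -⟩ := h1
  exact (tl_cs (m := m) hj (fun u _ => rfl)).1 ⟨i, h2, h3⟩

theorem SF_str {Nv j : ℕ} (hj : j < 2 * (Nv * Nv)) : Str (SF Nv).board (Nv + 1) (9 * j + 7) := by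
  refine ⟨?_, ?_, by omega, ?_, ?_⟩
  · change Nv + 1 ≤ 2 * (Nv + 2); omega
  · change 9 * j + 7 < 9 * (2 * (Nv * Nv)) + 6; omega
  · rw [Fm.lit7 _ (by omega)]
    simp only [SF, Bool.or_eq_false_iff, decide_eq_false_iff_not]
    refine ⟨⟨?_, ?_⟩, ?_⟩ <;> omega
  · change (decide ((9 * j + 7) % 9 = 7) && (SF Nv).bl ((9 * j + 7) / 9) (Nv + 1)) = false
    rw [Bool.and_eq_false_iff]
    right
    simp only [SF, decide_eq_false_iff_not]
    omega

theorem SF_M (Nv : ℕ) : 1 ≤ (SF Nv).board.M := Fm.one_le_M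

/-- tight tours satisfy the clauses whose vertical connection is used -/
theorem SF_sound {Nv : ℕ} {σ : Equiv.Perm Nd}
    (hT : Cyc ((SF Nv).board.Val a0) (SF Nv).board.Tight σ) :
    ∃ α : ℕ → Bool, ∀ j < 2 * (Nv * Nv),
      us σ (dn (Nv + 1) (9 * j + 7)) (dv (Nv + 1) (9 * j + 7)) = 1 → cs Nv α j = true := by
  classical
  have hL := loc_of_cyc (SF_M Nv) hT
  obtain ⟨m, hm⟩ := sound' (SF_M Nv) hL
  set x : ℕ → ℕ → Bool := fun j e =>
    decide (vt (SF Nv).board a0 (fun v w => σ v = w) e (2 * (9 * j + 7) + 1) false = 1) with hx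
  have h1 : (SF Nv).Sat x := by
    refine Fm.sat_of_asg (SF_ok Nv) ⟨m, fun c hc e he h => hm c hc e he ?_⟩
    unfold Fm.ac at h
    rw [Bool.and_eq_true, Bool.and_eq_true, decide_eq_true_eq] at h
    obtain ⟨h1, h2, -⟩ := h
    rw [hx] at h2
    simp only [decide_eq_true_eq] at h2
    rwa [show 9 * (c / 9) + 7 = c by omega] at h2
  obtain ⟨α, hα⟩ := SF_of_sat h1
  refine ⟨α, fun j hj h => hα j hj ?_⟩
  obtain ⟨-, -, h3⟩ := sum_dn (SF_M Nv) hL (SF_str hj)
  rw [hx]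
  simp only [decide_eq_true_eq]
  rw [h3, ua_perm]
  exact h

/-- every assignment gives a tight tour -/
theorem SF_list (Nv : ℕ) (α : ℕ → Bool) :
    ∃ l : List Nd, (Nd.C 0 false :: Nd.S 0 false :: l).Nodup ∧
      (∀ v, v ∈ Nd.C 0 false :: Nd.S 0 false :: l ↔ (SF Nv).board.Val a0 v) ∧
      Cyc ((SF Nv).board.Val a0) (SF Nv).board.Tight
        (Nd.C 0 false :: Nd.S 0 false :: l).formPerm ∧
      ∀ j < 2 * (Nv * Nv), us (Nd.C 0 false :: Nd.S 0 false :: l).formPerm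
        (dn (Nv + 1) (9 * j + 7)) (dv (Nv + 1) (9 * j + 7)) = (cs Nv α j).toNat := by
  obtain ⟨m, kc, cc, z0, hG, hk, hz⟩ := good_of_sat' (SF_ok Nv) (SF_sat Nv α)
  obtain ⟨l, h1, h2, h3, h4⟩ := good_list (SF_M Nv) hG
  refine ⟨l, h1, h2, h3, fun j hj => ?_⟩
  rw [h4 _ _ (SF_str hj) (hk _ (by omega)),
    hz (9 * j + 7) (by omega) (by
      rw [show (9 * j + 7) / 9 = j by omega]
      exact hj) (Nv + 1) (by change Nv + 1 ≤ 2 * (Nv + 2); omega) (by simp [SF])
      (fun e' _ h => by simp only [SF, decide_eq_true_eq] at h; omega),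
    show (9 * j + 7) / 9 = j by omega]

/-- the number of the clause of the variables `u` and `v` -/
def jx (Nv u v : ℕ) (s : Bool) : ℕ := 2 * (u * Nv + v) + s.toNat

theorem jx_div {Nv u v : ℕ} (hv : v < Nv) (s : Bool) :
    jx Nv u v s / 2 / Nv = u ∧ jx Nv u v s / 2 % Nv = v ∧ jx Nv u v s % 2 = s.toNat := by
  have h1 : jx Nv u v s / 2 = u * Nv + v := by
    unfold jx
    cases s <;> simp <;> omega
  have h2 : jx Nv u v s % 2 = s.toNat := by
    unfold jx
    cases s <;> simp <;> omega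
  rw [h1, h2]
  refine ⟨?_, ?_, rfl⟩
  · rw [mul_comm, Nat.mul_add_div (by omega), Nat.div_eq_of_lt hv, add_zero]
  · rw [mul_comm, Nat.mul_add_mod, Nat.mod_eq_of_lt hv]

theorem jx_lt {Nv u v : ℕ} (hu : u < Nv) (hv : v < Nv) (s : Bool) :
    jx Nv u v s < 2 * (Nv * Nv) := by
  have h1 : u * Nv + v < Nv * Nv := by nlinarith
  unfold jx
  cases s <;> simp <;> omega

theorem jx_cs {Nv u v : ℕ} (hv : v < Nv) (α : ℕ → Bool) (s : Bool) :
    cs Nv α (jx Nv u v s) = if s then (!(α u) || !(α v)) else (α u || α v) := by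
  obtain ⟨h1, h2, h3⟩ := jx_div hv (u := u) s
  unfold cs
  rw [h1, h2, h3]
  cases s <;> simp

section

variable {m b : ℕ} (S : Fin m → Fin b)

/-- the variable of part `i` -/
def vi (i : Fin m) : ℕ := (finProdFinEquiv (i, S i)).val

theorem vi_lt (i : Fin m) : vi S i < m * b := (finProdFinEquiv (i, S i)).2

theorem vi_inj {i i' : Fin m} (h : vi S i = vi S i') : i = i' := by
  have h1 : (finProdFinEquiv (i, S i)) = (finProdFinEquiv (i', S i')) := Fin.ext h
  have h2 := finProdFinEquiv.injective h1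
  rw [Prod.mk.injEq] at h2
  exact h2.1

/-- the column of a clause -/
def cf (q : (Fin m × Fin m) × Bool) : ℕ :=
  9 * jx (m * b) (vi S q.1.1) (vi S q.1.2) q.2 + 7

theorem cf_inj : Function.Injective (cf S) := by
  rintro ⟨⟨i, i'⟩, s⟩ ⟨⟨k, k'⟩, s'⟩ h
  unfold cf at h
  simp only at h
  have h1 : jx (m * b) (vi S i) (vi S i') s = jx (m * b) (vi S k) (vi S k') s' := by omega
  obtain ⟨g1, g2, g3⟩ := jx_div (vi_lt S i') (u := vi S i) s
  obtain ⟨g1', g2', g3'⟩ := jx_div (vi_lt S k') (u := vi S k) s'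
  rw [h1, g1'] at g1
  rw [h1, g2'] at g2
  rw [h1, g3'] at g3
  have e1 := vi_inj S g1
  have e2 := vi_inj S g2
  have e3 : s' = s := by
    cases s <;> cases s' <;> simp at g3 ⊢
  rw [e1, e2, e3]

/-- the columns of the displaced nodes -/
def cols : Finset ℕ := Finset.univ.image (cf S)

theorem card_cols : #(cols S) = 2 * (m * m) := by
  unfold cols
  rw [Finset.card_image_of_injective _ (cf_inj S), Finset.card_univ]
  simp
  ring

theorem cols_str : ∀ c ∈ cols S, Str (SF (m * b)).board (m * b + 1) c := by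
  intro c hc
  unfold cols at hc
  obtain ⟨q, -, rfl⟩ := Finset.mem_image.1 hc
  exact SF_str (jx_lt (vi_lt S _) (vi_lt S _) _)

theorem sum_cols (f : ℕ → ℝ) : ∑ c ∈ cols S, f c = ∑ i, ∑ i',
    (f (9 * jx (m * b) (vi S i) (vi S i') false + 7) +
      f (9 * jx (m * b) (vi S i) (vi S i') true + 7)) := by
  unfold cols
  rw [Finset.sum_image (fun q _ q' _ h => cf_inj S h), Fintype.sum_prod_type,
    Fintype.sum_prod_type]
  refine Finset.sum_congr rfl fun i _ => Finset.sum_congr rfl fun i' _ => ?_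
  rw [Fintype.sum_bool, add_comm]
  rfl

theorem sum_pairs (y : Fin m → Bool) : ∑ i, ∑ i', (((y i || y i').toNat : ℝ) +
    ((!(y i) || !(y i')).toNat : ℝ)) = (m : ℝ) * m + 2 * (wt y * ((m : ℝ) - wt y)) := by
  have h1 : ∀ a b : Bool, (((a || b).toNat : ℝ) + ((!a || !b).toNat : ℝ)) =
      1 + (if a then (1 : ℝ) else 0) + (if b then (1 : ℝ) else 0) -
        2 * ((if a then (1 : ℝ) else 0) * (if b then (1 : ℝ) else 0)) := by
    intro a b
    cases a <;> cases b <;> norm_num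
  have h2 : (wt y : ℝ) = ∑ i, (if y i then (1 : ℝ) else 0) := by
    unfold wt
    push_cast
    rfl
  simp only [h1]
  simp only [Finset.sum_sub_distrib, Finset.sum_add_distrib, ← Finset.mul_sum, ← Finset.sum_mul,
    Finset.sum_const, Finset.card_univ, Fintype.card_fin, nsmul_eq_mul, mul_one, ← h2]
  ring

/-- the number of satisfied clauses -/
theorem sum_sat (α : ℕ → Bool) (y : Fin m → Bool) (hy : ∀ i, α (vi S i) = y i) :
    ∑ i, ∑ i', (((cs (m * b) α (jx (m * b) (vi S i) (vi S i') false)).toNat : ℝ) +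
      ((cs (m * b) α (jx (m * b) (vi S i) (vi S i') true)).toNat : ℝ)) =
      (m : ℝ) * m + 2 * (wt y * ((m : ℝ) - wt y)) := by
  rw [← sum_pairs]
  refine Finset.sum_congr rfl fun i _ => Finset.sum_congr rfl fun i' _ => ?_
  rw [jx_cs (vi_lt S i'), jx_cs (vi_lt S i'), hy, hy]
  simp

end

theorem kf_eq (t : ℕ) (y : Fin (2 * t + 1) → Bool) :
    ((2 * t + 1 : ℕ) : ℝ) * ((2 * t + 1 : ℕ) : ℝ) +
      2 * (wt y * (((2 * t + 1 : ℕ) : ℝ) - wt y)) =
    ((2 * t + 1 : ℕ) : ℝ) * ((2 * t + 1 : ℕ) : ℝ) + 2 * (t * (t + 1)) - 2 * kf t y := by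
  unfold kf
  push_cast
  ring

end Pool.Agent.T9h21.SD
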