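import Pool.Agent.T9h21.SD.Cmp

set_option autoImplicit false

/-!
# Tight tours with given vertical connections
-/

namespace Pool.Agent.T9h21.SD

open Pool.Agent.T9h21.TB Pool.Agent.T9h21.TB.Board

section

variable {V : Type} [DecidableEq V] {P : V → Prop}

theorem cyc_of_chain (G : SimpleGraph V) {v0 : V} {l : List V} (hn : (v0 :: l).Nodup)
    (h3 : 3 ≤ (v0 :: l).length) (hm : ∀ v, v ∈ v0 :: l ↔ P v)
    (hc : (v0 :: (l ++ [v0])).IsChain G.Adj) : Cyc P G.Adj (v0 :: l).formPerm := by
  classical
  have h1 := cyc_of_list (d := fun v w => if G.Adj v w then (0 : ℝ) else 1) (r := fun _ => 0)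
    (P := P) hn h3 hm (fun v w _ _ _ => by split_ifs <;> norm_num) (γ := 1) (by
      have := tl_of_chain (d := fun v w => if G.Adj v w then (0 : ℝ) else 1) (r := fun _ => 0)
        (v0 := v0) (l := l) (hc.imp fun v w h => by simp [h])
      refine lt_of_le_of_lt this ?_
      simp)
  refine ⟨h1.val, h1.inv, fun v hv => ?_, h1.ne, h1.ne2, h1.conn⟩
  have := h1.tight v hv
  by_contra h
  rw [if_neg h] at this
  norm_num at this

theorem adj_us {G : SimpleGraph V} {σ : Equiv.Perm V} (hC : Cyc P G.Adj σ) {v w : V} (hv : P v)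
    (h : us σ v w = 1) : G.Adj v w := by
  rw [us_eq_one] at h
  rcases h with rfl | rfl
  · exact hC.tight v hv
  · have h1 := hC.tight _ (hC.inv v hv)
    rw [show σ (σ⁻¹ v) = v from Equiv.apply_symm_apply σ v] at h1
    exact h1.symm

end

variable {b : Board}

theorem cand_dn {m : ℕ → Bool} {z : ℕ → ℕ → Bool} {e c : ℕ} (h : Str b e c) (f : Bool) :
    ((.X e (2 * c + 1) 0 true, f) ∈ b.cand a0 m z (dn e c) → f = true → z e c = false) ∧
    ((dv e c, f) ∈ b.cand a0 m z (dn e c) → f = z e c) := by
  have hc := h.hc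
  have hc1 := h.hc1
  have he := h.he
  have hM : 1 ≤ b.M := by omega
  have h2 : b.lf e (2 * c + 1) 0 false = .X e (2 * c) 11 false := by
    unfold lf
    rw [if_pos rfl, Nat.add_sub_cancel, len_even hM, if_neg (by omega)]
  have h3 : b.rt e (2 * c + 1) 0 false = .X e (2 * c + 1) 1 false := by
    unfold rt
    rw [if_pos (by have := b.two_le_len e (2 * c + 1); omega)]
  have h4 : ¬ e = 2 * b.h + 1 := by omega
  have h5 : (2 * c + 1 - 1) / 2 = c := by omega
  unfold dn dv
  simp only [cand]
  rw [h2, h3, h5, h.blk]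
  unfold qcand vcand acand hA a0
  rw [h5, h.blk, if_neg h4]
  constructor
  · intro h6 h7
    subst h7
    simp at h6
    exact h6.2
  · intro h6
    simpa using h6

/-- A good configuration yields a tight tour with given vertical connections. -/
theorem good_list (hM : 1 ≤ b.M) {m : ℕ → Bool} {kc cc : ℕ → Bool} {z0 : ℕ → ℕ → Bool}
    (hG : Good b a0 m kc cc z0) : ∃ l : List Nd, (Nd.C 0 false :: Nd.S 0 false :: l).Nodup ∧
      (∀ v, v ∈ Nd.C 0 false :: Nd.S 0 false :: l ↔ b.Val a0 v) ∧
      Cyc (b.Val a0) b.Tight (Nd.C 0 false :: Nd.S 0 false :: l).formPerm ∧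
      ∀ e c, Str b e c → kc c = false →
        us (Nd.C 0 false :: Nd.S 0 false :: l).formPerm (dn e c) (dv e c) = (z0 e c).toNat := by
  have hH : b.H = 2 * b.h + 2 := rfl
  obtain ⟨z, hL, hz, hconn⟩ := conn' hM val_fin hG
  have hvC : b.Val a0 (.C 0 false) := by change 0 < b.H; omega
  have hvS : b.Val a0 (.S 0 false) := by change 0 < b.H; omega
  have hvT : b.Val a0 (.T 0 false) := ⟨by omega, rfl⟩
  set G := Gr b hM a0 m z with hGdef
  have hQ : ∃ l : List Nd, (Nd.C 0 false :: l).Nodup ∧ (∀ v, v ∈ Nd.C 0 false :: l ↔ b.Val a0 v) ∧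
      (Nd.C 0 false :: (l ++ [Nd.C 0 false])).IsChain G.Adj :=
    list_of_cycles G (P := b.Val a0) val_fin (fun v w h => h.1) (fun v hv => ncard_Gr hL hv) hvC
      fun v hv => (hconn _ hvC).symm.trans (hconn v hv)
  have hnb : ∀ a, G.Adj (.C 0 false) a → a = .S 0 false ∨ a = .T 0 false := by
    intro a ha
    have h1 := mem_nb ha.2.2
    simp only [nb, List.mem_cons, List.not_mem_nil, or_false] at h1
    exact h1
  have hQ' : ∃ l : List Nd, (Nd.C 0 false :: Nd.S 0 false :: l).Nodup ∧
      (∀ v, v ∈ Nd.C 0 false :: Nd.S 0 false :: l ↔ b.Val a0 v) ∧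
      (Nd.C 0 false :: (Nd.S 0 false :: l ++ [Nd.C 0 false])).IsChain G.Adj := by
    obtain ⟨l, h1, h2, h3⟩ := hQ
    have hSl : Nd.S 0 false ∈ l := by
      have := (h2 _).2 hvS
      simpa using this
    have hrev : (Nd.C 0 false :: l.reverse).Nodup ∧
        (∀ v, v ∈ Nd.C 0 false :: l.reverse ↔ b.Val a0 v) ∧
        (Nd.C 0 false :: (l.reverse ++ [Nd.C 0 false])).IsChain G.Adj := by
      refine ⟨?_, fun v => ?_, ?_⟩
      · simpa using h1
      · rw [← h2]; simp
      · have h4 : Nd.C 0 false :: (l.reverse ++ [Nd.C 0 false]) =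
            (Nd.C 0 false :: (l ++ [Nd.C 0 false])).reverse := by simp
        rw [h4, List.isChain_reverse]
        exact h3.imp fun v w h => h.symm
    cases l with
    | nil => simp at hSl
    | cons a l =>
      have h4 : G.Adj (.C 0 false) a := by
        rw [List.cons_append, List.isChain_cons_cons] at h3
        exact h3.1
      rcases hnb a h4 with rfl | rfl
      · exact ⟨l, h1, h2, h3⟩
      · obtain ⟨r1, r2, r3⟩ := hrev
        cases hl : (Nd.T 0 false :: l).reverse with
        | nil => simp at hl
        | cons a' l' =>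
          rw [hl] at r1 r2 r3
          have h5 : G.Adj (.C 0 false) a' := by
            rw [List.cons_append, List.isChain_cons_cons] at r3
            exact r3.1
          rcases hnb a' h5 with rfl | rfl
          · exact ⟨l', r1, r2, r3⟩
          · exfalso
            rw [List.reverse_cons] at hl
            cases hl2 : l.reverse with
            | nil =>
              rw [List.reverse_eq_nil_iff] at hl2
              subst hl2
              simp at hSl
            | cons a2 l2 =>
              rw [hl2, List.cons_append, List.cons.injEq] at hl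
              have : Nd.T 0 false ∈ l := by
                rw [← List.mem_reverse, hl2, hl.1]
                simp
              rw [List.nodup_cons, List.nodup_cons] at h1
              exact h1.2.1 this
  obtain ⟨l, h1, h2, h3⟩ := hQ'
  have hlen : 3 ≤ (Nd.C 0 false :: Nd.S 0 false :: l).length := by
    have h4 : Nd.T 0 false ∈ l := by
      have := (h2 _).2 hvT
      simpa using this
    have := List.length_pos_of_mem h4
    simp only [List.length_cons]
    omega
  have hC := cyc_of_chain (P := b.Val a0) G h1 hlen h2 h3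
  have hT : Cyc (b.Val a0) b.Tight (Nd.C 0 false :: Nd.S 0 false :: l).formPerm :=
    ⟨hC.val, hC.inv, fun v hv => nb_tight hM hv (mem_nb (hC.tight v hv).2.2), hC.ne, hC.ne2,
      hC.conn⟩
  refine ⟨l, h1, h2, hT, fun e c hs hk => ?_⟩
  obtain ⟨-, h5, -⟩ := sum_dn hM (loc_of_cyc hM hT) hs
  simp only [ua_perm] at h5
  rw [← hz e c hk]
  set σ := (Nd.C 0 false :: Nd.S 0 false :: l).formPerm with hσ
  cases hze : z e c with
  | true =>
    rcases us_cases (σ := σ) (dn e c) (.X e (2 * c + 1) 0 true) with h6 | h6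
    · rw [h6] at h5
      simpa using h5
    · exfalso
      have h7 := (adj_us hC hs.val h6).2.2
      have h8 := (cand_dn hs true).1 h7 rfl
      rw [hze] at h8
      simp at h8
  | false =>
    rcases us_cases (σ := σ) (dn e c) (dv e c) with h6 | h6
    · simpa using h6
    · exfalso
      have h7 := (adj_us hC hs.val h6).2.2
      have h8 := (cand_dn hs true).2 h7
      rw [hze] at h8
      simp at h8

end Pool.Agent.T9h21.SD
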