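import Pool.Agent.T9h21.SD.Asm

set_option autoImplicit false

/-!
# Semidefinite formulations of the Euclidean travelling salesman problem are large
-/

namespace Pool.Agent.T9h21.SD

open Finset
open Pool.Agent.T9h21.TB Pool.Agent.T9h21.TB.Board

/-- a bound on the number of nodes -/
theorem n0_le (b : Board) (hM : 1 ≤ b.M) : n0 b ≤ (64 * b.M + 71) * (72 * b.h + 55) := by
  have h1 : ∀ v : {v // b.Val a0 v}, (b.px v.1 + 19).toNat < 64 * b.M + 71 ∧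
      (b.py v.1 + (72 * b.h + 45)).toNat < 72 * b.h + 55 := by
    intro v
    obtain ⟨g1, g2, g3, g4⟩ := rng v.2
    omega
  have h2 : Function.Injective (fun v : {v // b.Val a0 v} =>
      ((⟨(b.px v.1 + 19).toNat, (h1 v).1⟩, ⟨(b.py v.1 + (72 * b.h + 45)).toNat, (h1 v).2⟩) :
        Fin (64 * b.M + 71) × Fin (72 * b.h + 55))) := by
    intro v w h
    simp only [Prod.mk.injEq, Fin.mk.injEq] at h
    obtain ⟨g1, g2, g3, g4⟩ := rng v.2
    obtain ⟨g1', g2', g3', g4'⟩ := rng w.2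
    apply Subtype.ext
    apply pos_inj hM v.2 w.2
    unfold pos
    rw [Prod.mk.injEq]
    omega
  have h3 := Nat.card_le_card_of_injective _ h2
  rw [Nat.card_prod, Nat.card_fin, Nat.card_fin] at h3
  exact h3

theorem tot_le (b : Board) (hM : 1 ≤ b.M) : ((packB hM).tot : ℝ) ≤ 17 * n0 b := by
  have h1 : (packB hM).tot ≤ 17 * n0 b := by
    have h2 : n0 b = #((packB hM).fin.toFinset) :=
      Set.ncard_eq_toFinset_card {v | b.Val a0 v} (packB hM).fin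
    rw [h2]
    unfold Pack.tot
    refine (Finset.sum_le_card_nsmul _ _ 17 fun v hv => ?_).trans (le_of_eq ?_)
    · rw [Set.Finite.mem_toFinset] at hv
      exact rad_le v hv
    · rw [nsmul_eq_mul]
      ring
  exact_mod_cast h1

/-- the box of the board with `Nv` variables -/
def Bx (Nv : ℕ) : ℕ := (64 * (9 * (2 * (Nv * Nv)) + 6) + 71) * (72 * (Nv + 2) + 55)

theorem num1 {M h n : ℕ} (hn : (64 * M + 71) * (72 * h + 55) ≤ n) :
    64 * M + 71 ≤ n ∧ 72 * h + 55 ≤ n :=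
  ⟨le_trans (Nat.le_mul_of_pos_right _ (by omega)) hn,
    le_trans (Nat.le_mul_of_pos_left _ (by omega)) hn⟩

theorem num2 {M h n N : ℕ} (h1 : 64 * M + 71 ≤ n) (h2 : 72 * h + 55 ≤ n) (hN : n ^ 2 ≤ N) :
    (64 * M + 70) * n ≤ N ∧ (72 * h + 54) * n + 1 ≤ N := by
  have e1 : (64 * M + 70) * n ≤ n * n := Nat.mul_le_mul_right _ (by omega)
  have e2 : (72 * h + 55) * n ≤ n * n := Nat.mul_le_mul_right _ h2
  have e3 : (72 * h + 55) * n = (72 * h + 54) * n + n := by ring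
  have e4 : n ^ 2 = n * n := by ring
  omega

theorem num3 {x y T m k : ℝ} (hy : 1 ≤ y) (h1 : T ≤ 17 * y) (h2 : k ≤ 10 * y + 1)
    (h3 : 552 * (m * m) ≤ y) (h4 : 0 ≤ m * m) (h5 : 0 ≤ x) :
    y * (2 * T) + 2 * (m * m) * (k - 10 * y + 1) - 2 * (m * m + 2 * x) ≤ 35 * y ^ 2 := by
  have f8 : y * (2 * T) ≤ y * (34 * y) := mul_le_mul_of_nonneg_left (by linarith) (by linarith)
  have f9 : (m * m) * (k - 10 * y + 1) ≤ (m * m) * 2 :=
    mul_le_mul_of_nonneg_left (by linarith) h4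
  nlinarith

/-- a scaled placement -/
def scl {n N0 N s : ℕ} (hs : 1 ≤ s) (hN : s * N0 ≤ N) (p : Placement n N0) : Placement n N :=
  ⟨fun i => ((s : ℤ) * (p.1 i).1, (s : ℤ) * (p.1 i).2), by
    intro i j h
    have hs' : (s : ℤ) ≠ 0 := by omega
    rw [Prod.mk.injEq] at h
    exact p.2.1 (Prod.ext (mul_left_cancel₀ hs' h.1) (mul_left_cancel₀ hs' h.2)), by
    intro i
    obtain ⟨h1, h2, h3, h4⟩ := p.2.2 i
    have hs0 : (0 : ℤ) ≤ s := by omega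
    have hN' : (s : ℤ) * N0 ≤ N := by exact_mod_cast hN
    exact ⟨mul_nonneg hs0 h1, (mul_le_mul_of_nonneg_left h2 hs0).trans hN', mul_nonneg hs0 h3,
      (mul_le_mul_of_nonneg_left h4 hs0).trans hN'⟩⟩

theorem len_scl {n N0 N s : ℕ} (hs : 1 ≤ s) (hN : s * N0 ≤ N) (p : Placement n N0) (σ : Tour n) :
    len (scl hs hN p) σ = s * len p σ := by
  unfold len
  rw [Finset.mul_sum]
  refine Finset.sum_congr rfl fun i _ => ?_
  exact dst_sc (K := s) (p.1 i) (p.1 (σ.1 i))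

open Pool.Agent.TH661.LRS in
theorem kf_le (t : ℕ) (y : Fin (2 * t + 1) → Bool) : kf t y ≤ t * (t + 1) := by
  have h1 : wt y ≤ 2 * t + 1 := by
    unfold wt
    refine (Finset.sum_le_card_nsmul _ _ 1 fun i _ => by split_ifs <;> omega).trans ?_
    simp
  have h2 : (wt y : ℝ) ≤ 2 * t + 1 := by exact_mod_cast h1
  have h3 : (0 : ℝ) ≤ wt y := Nat.cast_nonneg _
  unfold kf
  nlinarith [mul_nonneg h3 (sub_nonneg.2 h2)]

theorem num4 {n s m a η L N : ℝ} (hn : 1 ≤ n) (hs : 1 ≤ s) (hm : 304 * m ≤ n) (hm0 : 0 ≤ m)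
    (hη : 0 ≤ η) (hL : L ≤ s * (36 * n ^ 2)) (hN : N ≤ (s + 1) * n ^ 2) (ha : a * n ^ 3 ≤ N)
    (hη1 : η * n ^ 3 ≤ 1) : 32 * m * (a + η * L) ≤ 4 * s := by
  have e1 : a * n ≤ 2 * s := by
    have h1 : a * n ^ 3 ≤ (2 * s) * n ^ 2 := by
      refine ha.trans (hN.trans (mul_le_mul_of_nonneg_right (by linarith) (by positivity)))
    have h2 : a * n * n ^ 2 ≤ (2 * s) * n ^ 2 := by
      calc a * n * n ^ 2 = a * n ^ 3 := by ring
        _ ≤ _ := h1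
    exact le_of_mul_le_mul_right h2 (by positivity)
  have e2 : η * L * n ≤ 36 * s := by
    calc η * L * n ≤ η * (s * (36 * n ^ 2)) * n :=
          mul_le_mul_of_nonneg_right (mul_le_mul_of_nonneg_left hL hη) (by linarith)
      _ = (36 * s) * (η * n ^ 3) := by ring
      _ ≤ (36 * s) * 1 := mul_le_mul_of_nonneg_left hη1 (by linarith)
      _ = 36 * s := by ring
  have e3 : (32 * m * (a + η * L)) * n ≤ (4 * s) * n := by
    calc (32 * m * (a + η * L)) * n = 32 * m * (a * n + η * L * n) := by ring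
      _ ≤ 32 * m * (2 * s + 36 * s) := mul_le_mul_of_nonneg_left (by linarith) (by linarith)
      _ = 4 * s * (304 * m) := by ring
      _ ≤ 4 * s * n := mul_le_mul_of_nonneg_left hm (by linarith)
  exact le_of_mul_le_mul_right e3 (by linarith)

section

variable {V : Type*} [AddCommGroup V] [Module ℝ V] {r k : ℕ}

/-- the lower bound for given parameters -/
theorem bound_t (F : Program V r k) {t J b n N : ℕ} {a η : ℝ} (ht : 81 ≤ t)
    (hJ : 520 * t ^ 3 ≤ J ^ 4) (hb : 21 * (J * t) ≤ b) (hn : Bx ((2 * t + 1) * b) ≤ n)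
    (hN : n ^ 2 ≤ N) (ha : a * (n : ℝ) ^ 3 ≤ N) (h0 : 0 ≤ η) (hη : η * (n : ℝ) ^ 3 ≤ 1)
    (hF : F.Solves n N a η) : 2 ^ t < 2 ^ k * (r + 1) := by
  have hJ1 : 1 ≤ J := by
    rcases Nat.eq_zero_or_pos J with rfl | h
    · have : 0 < t ^ 3 := by positivity
      norm_num at hJ
      omega
    · exact h
  have hb1 : 1 ≤ b := by
    have : 1 ≤ J * t := Nat.mul_pos hJ1 (by omega)
    omega
  have hNvt : 2 * t + 1 ≤ (2 * t + 1) * b := Nat.le_mul_of_pos_right _ hb1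
  have hM : (SF ((2 * t + 1) * b)).board.M =
    9 * (2 * (((2 * t + 1) * b) * ((2 * t + 1) * b))) + 6 := rfl
  obtain ⟨e1, e2⟩ := num1 (M := (SF ((2 * t + 1) * b)).board.M)
    (h := (SF ((2 * t + 1) * b)).board.h) hn
  have e3 : n0 (SF ((2 * t + 1) * b)).board ≤ n := (n0_le _ (SF_M _)).trans hn
  have e4 : 552 * ((2 * t + 1) * (2 * t + 1)) ≤ n := by
    have h1 : (2 * t + 1) * (2 * t + 1) ≤ ((2 * t + 1) * b) * ((2 * t + 1) * b) :=
      Nat.mul_le_mul hNvt hNvt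
    have e1' := e1
    rw [hM] at e1'
    generalize (2 * t + 1) * (2 * t + 1) = x at h1 ⊢
    generalize ((2 * t + 1) * b) * ((2 * t + 1) * b) = y at h1 e1'
    omega
  obtain ⟨e5, e6⟩ := num2 e1 e2 (le_refl (n ^ 2))
  have e7 : 2 ≤ n := le_trans (by omega) e2
  obtain ⟨P, T, g1, g2⟩ := exists_inst (t := t) (b := b) (n := n) (K := n) (N := n ^ 2)
    e5 e6 (by
      generalize n0 (SF ((2 * t + 1) * b)).board = x
      clear * - e7
      omega) e7 (by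
      clear * - e4
      generalize (2 * t + 1) * (2 * t + 1) = x at e4 ⊢
      omega) e3
  have f7 : (1 : ℝ) ≤ n := by exact_mod_cast (le_trans (by norm_num) e7 : 1 ≤ n)
  have f4 : (552 : ℝ) * (((2 * t + 1 : ℕ) : ℝ) * ((2 * t + 1 : ℕ) : ℝ)) ≤ n := by
    exact_mod_cast e4
  have hC : CS ((2 * t + 1) * b) t n ≤ 35 * (n : ℝ) ^ 2 := by
    have f1 := tot_le (SF ((2 * t + 1) * b)).board (SF_M _)
    have f2 : (n0 (SF ((2 * t + 1) * b)).board : ℝ) ≤ n := by exact_mod_cast e3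
    have f3 := kap_le n
    have f10 : ((2 * ((2 * t + 1) * (2 * t + 1)) : ℕ) : ℝ) =
        2 * (((2 * t + 1 : ℕ) : ℝ) * ((2 * t + 1 : ℕ) : ℝ)) := by push_cast; ring
    unfold CS
    rw [f10]
    exact num3 f7 (f1.trans (mul_le_mul_of_nonneg_left f2 (by norm_num))) f3 f4 (by positivity)
      (by positivity)
  -- the scaling
  have hn2 : 0 < n ^ 2 := by positivity
  set s : ℕ := N / n ^ 2 with hs
  have hs1 : 1 ≤ s := (Nat.one_le_div_iff hn2).2 hN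
  have hsN : s * n ^ 2 ≤ N := Nat.div_mul_le_self _ _
  have hNs : N ≤ (s + 1) * n ^ 2 := by
    have := Nat.lt_div_mul_add (a := N) hn2
    rw [← hs] at this
    linarith
  have hs1' : (1 : ℝ) ≤ s := by exact_mod_cast hs1
  have hNs' : (N : ℝ) ≤ (s + 1) * (n : ℝ) ^ 2 := by exact_mod_cast hNs
  have hη1 : η ≤ 1 := by
    have h1 : (1 : ℝ) ≤ (n : ℝ) ^ 3 := one_le_pow₀ f7
    nlinarith
  have h := F.bound hF hη1 h0 t J 1 b ht le_rfl hJ (by
    refine le_trans (le_of_eq ?_) hb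
    norm_num
    ring) (fun S => scl hs1 hsN (P S)) T (s * CS ((2 * t + 1) * b) t n) (4 * s) (by linarith)
    (fun S x => ?_) (fun S x => ?_) (fun S σ => ?_)
  · rwa [one_mul] at h
  · have h1 : (304 : ℝ) * (2 * t + 1) ≤ n := by
      have h2 : (1 : ℝ) ≤ ((2 * t + 1 : ℕ) : ℝ) := by
        have : 1 ≤ 2 * t + 1 := by omega
        exact_mod_cast this
      have h3 : ((2 * t + 1 : ℕ) : ℝ) = 2 * t + 1 := by push_cast; ring
      rw [h3] at f4 h2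
      nlinarith
    refine num4 f7 hs1' h1 (by positivity) h0 ?_ hNs' ha hη
    rw [len_scl, g1]
    refine mul_le_mul_of_nonneg_left ?_ (by linarith)
    have h2 := kf_le t (Pool.Agent.TH661.LRS.res S x)
    have h3 : ((2 * t + 1 : ℕ) : ℝ) = 2 * t + 1 := by push_cast; ring
    rw [h3] at f4
    have h4 : (n : ℝ) ≤ (n : ℝ) ^ 2 := by nlinarith
    have h5 : (0 : ℝ) ≤ t := Nat.cast_nonneg _
    nlinarith
  · rw [len_scl, g1]
    ring
  · rw [len_scl]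
    exact mul_le_mul_of_nonneg_left (g2 S σ) (by linarith)

end

theorem Bx_le {q : ℕ} (hq : 1 ≤ q) :
    Bx ((2 * q ^ 4 + 1) * (105 * q ^ 7)) ≤ 2 ^ 44 * q ^ 33 := by
  have h1 : (2 * q ^ 4 + 1) * (105 * q ^ 7) ≤ 315 * q ^ 11 := by
    have : 1 ≤ q ^ 4 := Nat.one_le_pow _ _ hq
    calc (2 * q ^ 4 + 1) * (105 * q ^ 7) ≤ (3 * q ^ 4) * (105 * q ^ 7) :=
          Nat.mul_le_mul_right _ (by omega)
      _ = 315 * q ^ 11 := by ring
  have h0 : 1 ≤ (2 * q ^ 4 + 1) * (105 * q ^ 7) := Nat.mul_pos (by positivity) (by positivity)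
  generalize (2 * q ^ 4 + 1) * (105 * q ^ 7) = x at h0 h1
  have h2 : Bx x ≤ (1607 * x ^ 2) * (271 * x) := by
    unfold Bx
    refine Nat.mul_le_mul ?_ (by omega)
    nlinarith
  calc Bx x ≤ (1607 * x ^ 2) * (271 * x) := h2
    _ = 435497 * x ^ 3 := by ring
    _ ≤ 435497 * (315 * q ^ 11) ^ 3 := Nat.mul_le_mul_left _ (Nat.pow_le_pow_left h1 3)
    _ = (435497 * 315 ^ 3) * q ^ 33 := by ring
    _ ≤ 2 ^ 44 * q ^ 33 := Nat.mul_le_mul_right _ (by norm_num)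

section

variable {V : Type*} [AddCommGroup V] [Module ℝ V] {r k : ℕ}

theorem bound_q (F : Program V r k) {q n N : ℕ} {a η : ℝ} (hq : 3 ≤ q)
    (hn : 2 ^ 44 * q ^ 33 ≤ n) (hN : n ^ 2 ≤ N) (ha : a * (n : ℝ) ^ 3 ≤ N) (h0 : 0 ≤ η)
    (hη : η * (n : ℝ) ^ 3 ≤ 1) (hF : F.Solves n N a η) : 2 ^ q ^ 4 < 2 ^ k * (r + 1) := by
  refine bound_t F (t := q ^ 4) (J := 5 * q ^ 3) (b := 105 * q ^ 7) ?_ ?_ ?_
    ((Bx_le (by omega)).trans hn) hN ha h0 hη hF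
  · calc 81 = 3 ^ 4 := by norm_num
      _ ≤ q ^ 4 := Nat.pow_le_pow_left hq 4
  · calc 520 * (q ^ 4) ^ 3 = 520 * q ^ 12 := by ring
      _ ≤ 625 * q ^ 12 := Nat.mul_le_mul_right _ (by norm_num)
      _ = (5 * q ^ 3) ^ 4 := by ring
  · exact le_of_eq (by ring)

/-- Semidefinite programs for the Euclidean travelling salesman problem are large. -/
theorem main (F : Program V r k) {n N : ℕ} {a η : ℝ} (hn : 10 ^ 30 ≤ n) (hN : n ^ 2 ≤ N)
    (ha : a * (n : ℝ) ^ 3 ≤ N) (h0 : 0 ≤ η) (hη : η * (n : ℝ) ^ 3 ≤ 1) (hF : F.Solves n N a η) :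
    (2 : ℝ) ^ ((n : ℝ) ^ (4 / 33 : ℝ) / 1024) ≤ 2 ^ k * (r + 1) := by
  set y : ℝ := ((n : ℝ) / 2 ^ 44) ^ (1 / 33 : ℝ) with hy
  have hn' : ((2 : ℝ) ^ 44 * 3 ^ 33) ≤ n := by
    have h1 : 2 ^ 44 * 3 ^ 33 ≤ n := le_trans (by norm_num) hn
    exact_mod_cast h1
  have hn0 : (0 : ℝ) ≤ (n : ℝ) / 2 ^ 44 := by positivity
  have hy33 : y ^ 33 = (n : ℝ) / 2 ^ 44 := by
    rw [hy, ← Real.rpow_natCast, ← Real.rpow_mul hn0]
    norm_num
  have hy0 : 0 ≤ y := Real.rpow_nonneg hn0 _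
  have hy3 : 3 ≤ y := by
    by_contra h
    rw [not_le] at h
    have h1 : y ^ 33 < 3 ^ 33 := pow_lt_pow_left₀ h hy0 (by norm_num)
    rw [hy33, div_lt_iff₀ (by positivity)] at h1
    linarith
  set q : ℕ := ⌊y⌋₊ with hq
  have hq3 : 3 ≤ q := Nat.le_floor (by exact_mod_cast hy3)
  have hqy : (q : ℝ) ≤ y := Nat.floor_le hy0
  have hyq : y < q + 1 := Nat.lt_floor_add_one y
  have hqn : 2 ^ 44 * q ^ 33 ≤ n := by
    have h1 : (q : ℝ) ^ 33 ≤ y ^ 33 := pow_le_pow_left₀ (by positivity) hqy 33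
    rw [hy33, le_div_iff₀ (by positivity)] at h1
    have h2 : ((2 ^ 44 * q ^ 33 : ℕ) : ℝ) ≤ n := by push_cast; linarith
    exact_mod_cast h2
  have h1 := bound_q F hq3 hqn hN ha h0 hη hF
  have h2 : (2 : ℝ) ^ ((q ^ 4 : ℕ) : ℝ) ≤ 2 ^ k * (r + 1) := by
    rw [Real.rpow_natCast]
    exact_mod_cast h1.le
  refine le_trans (Real.rpow_le_rpow_of_exponent_le (by norm_num) ?_) h2
  have h3 : y / 2 ≤ q := by
    have : (3 : ℝ) ≤ q := by exact_mod_cast hq3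
    linarith
  have h4 : (y / 2) ^ 4 ≤ (q : ℝ) ^ 4 := pow_le_pow_left₀ (by positivity) h3 4
  have h5 : (n : ℝ) ^ (4 / 33 : ℝ) ≤ 64 * y ^ 4 := by
    have e1 : (n : ℝ) = 2 ^ 44 * ((n : ℝ) / 2 ^ 44) := by field_simp
    have e2 : y ^ 4 = ((n : ℝ) / 2 ^ 44) ^ (4 / 33 : ℝ) := by
      rw [hy, ← Real.rpow_natCast, ← Real.rpow_mul hn0]
      norm_num
    have e3 : ((2 : ℝ) ^ 44) ^ (4 / 33 : ℝ) ≤ 64 := by
      rw [← Real.rpow_natCast, ← Real.rpow_mul (by norm_num)]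
      calc (2 : ℝ) ^ (((44 : ℕ) : ℝ) * (4 / 33 : ℝ)) ≤ (2 : ℝ) ^ (6 : ℝ) :=
            Real.rpow_le_rpow_of_exponent_le (by norm_num) (by norm_num)
        _ = 64 := by norm_num
    calc (n : ℝ) ^ (4 / 33 : ℝ) = (2 ^ 44 * ((n : ℝ) / 2 ^ 44)) ^ (4 / 33 : ℝ) := by rw [← e1]
      _ = ((2 : ℝ) ^ 44) ^ (4 / 33 : ℝ) * ((n : ℝ) / 2 ^ 44) ^ (4 / 33 : ℝ) :=
          Real.mul_rpow (by positivity) hn0
      _ ≤ 64 * y ^ 4 := by
          rw [e2]
          exact mul_le_mul_of_nonneg_right e3 (Real.rpow_nonneg hn0 _)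
  push_cast
  have h6 : (y / 2) ^ 4 = y ^ 4 / 16 := by ring
  rw [h6] at h4
  linarith

end

end Pool.Agent.T9h21.SD
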