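import Pool.Agent.TH661.LRS.Cut

set_option autoImplicit false

/-!
# Semidefinite programs for the Euclidean travelling salesman problem
-/

namespace Pool.Agent.T9h21.SD

open Finset Matrix
open Pool.Agent.TH661.LRS

/-- The Euclidean distance of two points of the integer lattice. -/
noncomputable def dst (a b : ℤ × ℤ) : ℝ :=
  Real.sqrt (((a.1 - b.1 : ℤ) : ℝ) ^ 2 + ((a.2 - b.2 : ℤ) : ℝ) ^ 2)

/-- The placements of the labels `0, ..., n - 1` at distinct points of the grid `{0, ..., N} ^ 2`. -/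
def Placement (n N : ℕ) : Type :=
  {p : Fin n → ℤ × ℤ // Function.Injective p ∧
    ∀ i, 0 ≤ (p i).1 ∧ (p i).1 ≤ N ∧ 0 ≤ (p i).2 ∧ (p i).2 ≤ N}

/-- The tours through the labels `0, ..., n - 1`, as permutations: `σ i` is visited after `i`. -/
def Tour (n : ℕ) : Type := {σ : Equiv.Perm (Fin n) // ∀ i j : Fin n, ∃ l : ℕ, (σ ^ l) i = j}

/-- The length of a tour. -/
noncomputable def len {n N : ℕ} (p : Placement n N) (σ : Tour n) : ℝ :=
  ∑ i, dst (p.1 i) (p.1 (σ.1 i))

/-- The constraints of a mixed binary semidefinite program on a real vector space: any number of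
linear equations (the affine subspace `E`), a linear matrix inequality (the matrix `Z x` of order
`r`, which depends on `x` in an affine way, must be positive semidefinite), and `k` affine
functions `h j` that must take the values `0` or `1`. -/
structure Program (V : Type*) [AddCommGroup V] [Module ℝ V] (r k : ℕ) where
  E : AffineSubspace ℝ V
  Z : V →ᵃ[ℝ] Matrix (Fin r) (Fin r) ℝ
  h : Fin k → V →ᵃ[ℝ] ℝ

section

variable {V : Type*} [AddCommGroup V] [Module ℝ V] {r k : ℕ}

/-- The feasible points. -/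
def Program.Feasible (P : Program V r k) (x : V) : Prop :=
  x ∈ P.E ∧ (P.Z x).PosSemidef ∧ ∀ j, P.h j x = 0 ∨ P.h j x = 1

/-- The program solves the Euclidean travelling salesman problem for `n` labelled points of the
grid `{0, ..., N} ^ 2` with additive error `a` and relative error `η` (exactly if `a = η = 0`):
every tour `σ` has a feasible point `y σ`, every placement `p` has an affine objective function
`w p`, depending on `p` in an arbitrary way, whose value at `y σ` is the length of `σ` up to an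
error `a + η len p σ`, and whose value at any feasible point is at least
`(1 - η) len p σ - a` for some tour `σ`. -/
def Program.Solves (P : Program V r k) (n N : ℕ) (a η : ℝ) : Prop :=
  ∃ (y : Tour n → V) (w : Placement n N → V →ᵃ[ℝ] ℝ), (∀ σ, P.Feasible (y σ)) ∧
    (∀ p σ, |w p (y σ) - len p σ| ≤ a + η * len p σ) ∧
    ∀ p x, P.Feasible x → ∃ σ, (1 - η) * len p σ - a ≤ w p x

/-- The lower bound for semidefinite programs, with errors. -/
theorem union_bound' {m b r : ℕ} {I : Type*} [Fintype I] [DecidableEq I] (t J l : ℕ)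
    (ht : 81 ≤ t) (hl : 1 ≤ l) (hm : m = 2 * t + 1)
    (hJ : 520 * t ^ 3 ≤ J ^ 4) (hb : 7 * ((2 ^ (l + 1) - 1) * (J * (l * t))) ≤ b)
    {E F : Type*} [AddCommGroup E] [Module ℝ E] [AddCommGroup F] [Module ℝ F]
    (Zm : E →ₗ[ℝ] Matrix (Fin r) (Fin r) ℝ) (B : E →ₗ[ℝ] F) (c : I → F)
    (idx : (Fin m × Fin b → Bool) → I)
    (e : (Fin m × Fin b → Bool) → E) (he : ∀ x, (Zm (e x)).PosSemidef)
    (hB : ∀ x, B (e x) = c (idx x)) (L : (Fin m → Fin b) → E →ₗ[ℝ] ℝ)
    (w0 : (Fin m → Fin b) → I → ℝ)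
    (h : (Fin m → Fin b) → ℝ) (h1 : ∀ S, h S ≤ 1 / 16)
    (hval : ∀ S x, |L S (e x) + w0 S (idx x) - kf t (res S x) - h S| ≤ 1 / (32 * (2 * t + 1)))
    (hvalid : ∀ S i z, (Zm z).PosSemidef → B z = c i → 0 ≤ L S z + w0 S i) :
    2 ^ (l * t) < Fintype.card I * (r + 1) := by
  by_contra hr
  push Not at hr
  have hdual : ∀ (S : Fin m → Fin b) (i : I), ∃ (P : Matrix (Fin r) (Fin r) ℝ) (c0 : ℝ),
      P.PosSemidef ∧ 0 ≤ c0 ∧ ∀ x, idx x = i →
        |L S (e x) + w0 S i - (P * Zm (e x)).trace - c0| ≤ 1 / (32 * (2 * t + 1)) := by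
    intro S i
    by_cases hne : Nonempty {x // idx x = i}
    · obtain ⟨P, c0, hP, hc0, hPc⟩ := dual_approx Zm B (c i) (L S) (w0 S i)
        (fun z hz hBz => hvalid S i z hz hBz) (X := {x // idx x = i}) (fun x => e x.1)
        (fun x => he x.1) (fun x => by rw [hB, x.2]) (1 / (32 * (2 * t + 1))) (by positivity)
      exact ⟨P, c0, hP, hc0, fun x hx => hPc ⟨x, hx⟩⟩
    · exact ⟨0, 0, Matrix.PosSemidef.zero, le_rfl, fun x hx => absurd ⟨⟨x, hx⟩⟩ hne⟩
  choose P c0 hP hc0 hPc using hdual
  refine no_fact (κ := (Fin r ⊕ Unit) × I) t J l ht hl hm hJ hb ?_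
    (fun S => Matrix.blockDiagonal fun i =>
      Matrix.fromBlocks (P S i) 0 0 (Matrix.of fun _ _ : Unit => c0 S i))
    (fun S => psd_blockDiagonal fun i => psd_block (hP S i) (hc0 S i))
    (fun x => Matrix.blockDiagonal fun i => if i = idx x then
      Matrix.fromBlocks (Zm (e x)) 0 0 (Matrix.of fun _ _ : Unit => 1) else 0)
    (fun x => psd_blockDiagonal fun i => ?_) h h1 ?_
  · rw [Fintype.card_prod, Fintype.card_sum, Fintype.card_fin, Fintype.card_unit, mul_comm]
    exact hr
  · split_ifs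
    · exact psd_block (he x) zero_le_one
    · exact Matrix.PosSemidef.zero
  · intro S x
    rw [← Matrix.blockDiagonal_mul, Matrix.trace_blockDiagonal]
    have e1 : ∑ i, (Matrix.fromBlocks (P S i) 0 0 (Matrix.of fun _ _ : Unit => c0 S i) *
        if i = idx x then
          Matrix.fromBlocks (Zm (e x)) 0 0 (Matrix.of fun _ _ : Unit => (1 : ℝ)) else 0).trace
        = (P S (idx x) * Zm (e x)).trace + c0 S (idx x) := by
      rw [Finset.sum_eq_single (idx x)]
      · rw [if_pos rfl, trace_block, mul_one]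
      · intro i _ hi
        rw [if_neg hi, Matrix.mul_zero, Matrix.trace_zero]
      · intro hx
        exact absurd (Finset.mem_univ _) hx
    rw [e1]
    have g1 := hPc S (idx x) x rfl
    have g2 := hval S x
    have g3 : (1 : ℝ) / (16 * (2 * t + 1)) = 1 / (32 * (2 * t + 1)) + 1 / (32 * (2 * t + 1)) := by
      field_simp
      norm_num
    rw [g3]
    rw [abs_le] at g1 g2 ⊢
    constructor <;> linarith [g1.1, g1.2, g2.1, g2.2]

/-- an affine map as a linear map on a larger space -/
noncomputable def lin {W : Type*} [AddCommGroup W] [Module ℝ W] (f : V →ᵃ[ℝ] W) :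
    V × ℝ →ₗ[ℝ] W :=
  f.linear.comp (LinearMap.fst ℝ V ℝ) + (LinearMap.snd ℝ V ℝ).smulRight (f 0)

theorem lin_one {W : Type*} [AddCommGroup W] [Module ℝ W] (f : V →ᵃ[ℝ] W) (v : V) :
    lin f (v, 1) = f v := by
  have h := congrFun f.decomp v
  unfold lin
  simp only [LinearMap.add_apply, LinearMap.comp_apply, LinearMap.fst_apply,
    LinearMap.smulRight_apply, LinearMap.snd_apply, one_smul]
  rw [h]
  rfl

/-- The reduction: placements and tours whose lengths are knapsack functions. -/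
theorem Program.bound (P : Program V r k) {n N : ℕ} {a η : ℝ} (hP : P.Solves n N a η)
    (hη1 : η ≤ 1) (h0 : 0 ≤ η) (t J l b : ℕ) (ht : 81 ≤ t) (hl : 1 ≤ l)
    (hJ : 520 * t ^ 3 ≤ J ^ 4) (hb : 7 * ((2 ^ (l + 1) - 1) * (J * (l * t))) ≤ b)
    (Q : (Fin (2 * t + 1) → Fin b) → Placement n N) (T : (Fin (2 * t + 1) × Fin b → Bool) → Tour n)
    (C δ : ℝ) (hδ : 0 < δ)
    (hnum : ∀ S x, 32 * (2 * t + 1) * (a + η * len (Q S) (T x)) ≤ δ)
    (h1 : ∀ S x, len (Q S) (T x) = C + δ * kf t (res S x)) (h2 : ∀ S σ, C ≤ len (Q S) σ) :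
    2 ^ (l * t) < 2 ^ k * (r + 1) := by
  classical
  obtain ⟨y, w, hy, hval, hlow⟩ := hP
  set p0 : V := y (T fun _ => true) with hp0
  have hp0E : p0 ∈ P.E := (hy _).1
  have ht1 : (0 : ℝ) < 32 * (2 * t + 1) := by positivity
  have herr : ∀ S x, δ⁻¹ * (a + η * len (Q S) (T x)) ≤ 1 / (32 * (2 * t + 1)) := by
    intro S x
    rw [inv_mul_eq_div, div_le_div_iff₀ hδ ht1]
    linarith [hnum S x]
  have hidx : ∀ x : V, P.Feasible x → ∀ j, P.h j x = bits (fun j => decide (P.h j x = 1)) j := by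
    intro x hx j
    unfold bits
    rcases hx.2.2 j with g | g
    · simp [g]
    · simp [g]
  have hmain := union_bound' (m := 2 * t + 1) (b := b) (r := r) (I := Fin k → Bool) t J l ht hl rfl
    hJ hb (lin P.Z)
    ((LinearMap.snd ℝ V ℝ).prod
      ((P.E.direction.mkQ.comp (LinearMap.fst ℝ V ℝ - (LinearMap.snd ℝ V ℝ).smulRight p0)).prod
        (LinearMap.pi fun j => lin (P.h j))))
    (fun β => (1, 0, bits β))
    (fun x j => decide (P.h j (y (T x)) = 1))
    (fun x => (y (T x), 1)) (fun x => by rw [lin_one]; exact (hy _).2.1)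
    (fun x => by
      have g := hidx _ (hy (T x))
      refine Prod.ext rfl (Prod.ext ?_ ?_)
      · change P.E.direction.mkQ (y (T x) - (1 : ℝ) • p0) = 0
        rw [one_smul, Submodule.mkQ_apply, Submodule.Quotient.mk_eq_zero]
        exact AffineSubspace.vsub_mem_direction (hy _).1 hp0E
      · funext j
        change lin (P.h j) (y (T x), 1) = _
        rw [lin_one]
        exact g j)
    (fun S => δ⁻¹ • lin (w (Q S)))
    (fun S _ => -(δ⁻¹ * ((1 - η) * C - a)))
    (fun S => δ⁻¹ * (η * C + a)) (fun S => ?_) ?_ ?_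
  · rw [Fintype.card_fun, Fintype.card_bool, Fintype.card_fin] at hmain
    exact hmain
  · have g1 := herr S (fun _ => true)
    have g2 := h2 S (T fun _ => true)
    have g3 : δ⁻¹ * (η * C + a) ≤ δ⁻¹ * (a + η * len (Q S) (T fun _ => true)) := by
      refine mul_le_mul_of_nonneg_left ?_ (inv_nonneg.2 hδ.le)
      linarith [mul_le_mul_of_nonneg_left g2 h0]
    have g4 : (1 : ℝ) / (32 * (2 * t + 1)) ≤ 1 / 16 := by
      refine one_div_le_one_div_of_le (by norm_num) ?_
      have : (0 : ℝ) ≤ t := Nat.cast_nonneg _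
      linarith
    linarith
  · intro S x
    rw [LinearMap.smul_apply, lin_one, smul_eq_mul]
    have g1 := hval (Q S) (T x)
    have g2 := h1 S x
    have g3 : δ⁻¹ * w (Q S) (y (T x)) + -(δ⁻¹ * ((1 - η) * C - a)) - kf t (res S x) -
        δ⁻¹ * (η * C + a) = δ⁻¹ * (w (Q S) (y (T x)) - len (Q S) (T x)) := by
      rw [g2]
      field_simp
      ring
    rw [g3, abs_mul, abs_of_pos (inv_pos.2 hδ)]
    exact (mul_le_mul_of_nonneg_left g1 (inv_nonneg.2 hδ.le)).trans (herr S x)
  · rintro S β ⟨v, s⟩ hz hA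
    have hA1 := congrArg Prod.fst hA
    have hA2 := congrArg (fun q => q.2.1) hA
    have hA3 := congrArg (fun q => q.2.2) hA
    have hs : s = 1 := hA1
    subst hs
    change P.E.direction.mkQ (v - (1 : ℝ) • p0) = 0 at hA2
    rw [one_smul, Submodule.mkQ_apply, Submodule.Quotient.mk_eq_zero] at hA2
    have hv : v ∈ P.E := (AffineSubspace.vsub_right_mem_direction_iff_mem hp0E v).1 hA2
    have hf : P.Feasible v := by
      refine ⟨hv, by rw [lin_one] at hz; exact hz, fun j => ?_⟩
      have g : lin (P.h j) (v, 1) = bits β j := congrFun hA3 j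
      rw [lin_one] at g
      rw [g]
      unfold bits
      split_ifs
      · exact Or.inr rfl
      · exact Or.inl rfl
    obtain ⟨σ, hσ⟩ := hlow (Q S) v hf
    have g1 := h2 S σ
    rw [LinearMap.smul_apply, lin_one, smul_eq_mul]
    have g2 : (1 - η) * C ≤ (1 - η) * len (Q S) σ :=
      mul_le_mul_of_nonneg_left g1 (by linarith)
    have g3 : 0 ≤ δ⁻¹ * (w (Q S) v - ((1 - η) * C - a)) :=
      mul_nonneg (inv_nonneg.2 hδ.le) (by linarith)
    linarith

end

end Pool.Agent.T9h21.SD
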