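import Pool.Agent.T9h21.SD.Lst
import Pool.Agent.T9h21.TB.Grid

set_option autoImplicit false

/-!
# Placements of labels on displaced boards
-/

namespace Pool.Agent.T9h21.SD

open Finset
open Pool.Agent.ETSP (pl tl)
open Pool.Agent.T9h21.TB Pool.Agent.T9h21.TB.Board

variable (b : Board)

/-- the number of nodes -/
noncomputable def n0 : ℕ := Nat.card {v // b.Val a0 v}

instance : Finite {v // b.Val a0 v} := (val_fin (b := b) (act := a0)).to_subtype

/-- a numbering of the nodes -/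
noncomputable def nu : {v // b.Val a0 v} ≃ Fin (n0 b) := Finite.equivFin _

open Classical in
/-- the label of a node -/
noncomputable def lab {n : ℕ} (hn : n0 b ≤ n) (h0 : 0 < n) (v : Nd) : Fin n :=
  if h : b.Val a0 v then Fin.castLE hn (nu b ⟨v, h⟩) else ⟨0, h0⟩

theorem lab_val {n : ℕ} {hn : n0 b ≤ n} {h0 : 0 < n} {v : Nd} (h : b.Val a0 v) :
    lab b hn h0 v = Fin.castLE hn (nu b ⟨v, h⟩) := by
  unfold lab
  rw [dif_pos h]

theorem lab_inj {n : ℕ} {hn : n0 b ≤ n} {h0 : 0 < n} (v w : Nd) (hv : b.Val a0 v)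
    (hw : b.Val a0 w) (h : lab b hn h0 v = lab b hn h0 w) : v = w := by
  rw [lab_val b hv, lab_val b hw] at h
  have h1 := (nu b).injective (Fin.castLE_injective hn h)
  simpa using h1

theorem lab_im {n : ℕ} {hn : n0 b ≤ n} {h0 : 0 < n} (i : Fin n) :
    i.val < n0 b ↔ ∃ v, b.Val a0 v ∧ lab b hn h0 v = i := by
  constructor
  · intro h
    refine ⟨((nu b).symm ⟨i.val, h⟩).1, ((nu b).symm ⟨i.val, h⟩).2, ?_⟩
    rw [lab_val b ((nu b).symm ⟨i.val, h⟩).2]
    simp
  · rintro ⟨v, hv, rfl⟩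
    rw [lab_val b hv]
    exact (nu b ⟨v, hv⟩).2

/-- the positions of the labels -/
noncomputable def ptf (n K : ℕ) (D : Finset Nd) (i : Fin n) : ℤ × ℤ :=
  if h : i.val < n0 b then
    ps K b.pos D ((nu b).symm ⟨i.val, h⟩).1 + (19 * (K : ℤ), (72 * b.h + 45) * (K : ℤ) + 1)
  else (18 * (K : ℤ) - ((i.val : ℤ) - n0 b + 1), (72 * b.h + 45) * (K : ℤ) + 1)

variable {b}

theorem px_gap {v : Nd} (hv : b.Val a0 v) : b.px v = -19 ∨ -1 ≤ b.px v := by
  have hx : ∀ i n k, k ≤ b.len i n → 0 ≤ b.xx i n k := by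
    intro i n k hk
    obtain ⟨o, a, h1, h2, h3, -⟩ := st_data hk
    rw [h1]
    omega
  cases v with
  | X i n k s => right; have := hx i n k hv.2.2.1; simp only [px]; omega
  | Q i n k => right; have := hx i n k hv.2.2.1; simp only [px]; omega
  | S i r => right; cases r <;> simp only [px] <;> simp <;> omega
  | C i r => cases r <;> simp only [px] <;> simp <;> omega
  | T i r => cases r <;> simp only [px] <;> simp <;> omega
  | A e c => right; simp only [px]; omega

theorem ps_inj (hM : 1 ≤ b.M) {K : ℕ} (hK : 2 ≤ K) {D : Finset Nd} {v w : Nd}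
    (hv : b.Val a0 v) (hw : b.Val a0 w) (h : ps K b.pos D v = ps K b.pos D w) : v = w := by
  have hK' : (2 : ℤ) ≤ K := by exact_mod_cast hK
  unfold ps at h
  rw [Prod.mk.injEq] at h
  obtain ⟨h1, h2⟩ := h
  apply pos_inj hM hv hw
  have h3 : (b.pos v).1 = (b.pos w).1 := by
    have : (K : ℤ) ≠ 0 := by omega
    exact mul_left_cancel₀ this h1
  have h4 : (K : ℤ) * ((b.pos v).2 - (b.pos w).2) =
      (if v ∈ D then 1 else 0) - (if w ∈ D then 1 else 0) := by linarith
  have h5 : (b.pos v).2 = (b.pos w).2 := by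
    by_contra hne
    rcases lt_or_gt_of_ne hne with h6 | h6
    · have h7 : (K : ℤ) * ((b.pos v).2 - (b.pos w).2) ≤ K * (-1) :=
        mul_le_mul_of_nonneg_left (by omega) (by omega)
      rw [h4] at h7
      split_ifs at h7 <;> omega
    · have h7 : (K : ℤ) * 1 ≤ (K : ℤ) * ((b.pos v).2 - (b.pos w).2) :=
        mul_le_mul_of_nonneg_left (by omega) (by omega)
      rw [h4] at h7
      split_ifs at h7 <;> omega
  exact Prod.ext h3 h5

theorem ptf_rng {n K N : ℕ} {D : Finset Nd} (hN1 : (64 * b.M + 70) * K ≤ N)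
    (hN2 : (72 * b.h + 54) * K + 1 ≤ N) (hn : n ≤ 18 * K + n0 b) (hK : 1 ≤ K) (i : Fin n) :
    0 ≤ (ptf b n K D i).1 ∧ (ptf b n K D i).1 ≤ N ∧ 0 ≤ (ptf b n K D i).2 ∧
      (ptf b n K D i).2 ≤ N := by
  have hN1' : ((64 * b.M + 70) * K : ℤ) ≤ N := by exact_mod_cast hN1
  have hN2' : ((72 * b.h + 54) * K + 1 : ℤ) ≤ N := by exact_mod_cast hN2
  have hK' : (1 : ℤ) ≤ K := by exact_mod_cast hK
  unfold ptf
  split_ifs with h
  · set v := ((nu b).symm ⟨i.val, h⟩).1 with hv
    obtain ⟨g1, g2, g3, g4⟩ := rng ((nu b).symm ⟨i.val, h⟩).2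
    rw [← hv] at g1 g2 g3 g4
    unfold ps pos
    simp only [Prod.mk_add_mk]
    have e1 : (K : ℤ) * (-19) ≤ K * b.px v := mul_le_mul_of_nonneg_left g1 (by omega)
    have e2 : (K : ℤ) * b.px v ≤ K * (64 * b.M + 51) := mul_le_mul_of_nonneg_left g2 (by omega)
    have e3 : (K : ℤ) * (-(72 * b.h + 45)) ≤ K * b.py v := mul_le_mul_of_nonneg_left g3 (by omega)
    have e4 : (K : ℤ) * b.py v ≤ K * 9 := mul_le_mul_of_nonneg_left g4 (by omega)
    refine ⟨by linarith, by linarith, ?_, ?_⟩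
    · split_ifs <;> linarith
    · split_ifs <;> linarith
  · have h1 := i.2
    have h2 : (i.val : ℤ) < 18 * K + n0 b := by exact_mod_cast lt_of_lt_of_le h1 hn
    have h3 : (n0 b : ℤ) ≤ i.val := by exact_mod_cast not_lt.1 h
    have h4 : (0 : ℤ) ≤ b.M * K := by positivity
    have h5 : (0 : ℤ) ≤ b.h * K := by positivity
    refine ⟨by simp only; omega, by simp only; nlinarith, by simp only; nlinarith, ?_⟩
    simp only
    nlinarith

theorem ptf_inj (hM : 1 ≤ b.M) {n K : ℕ} {D : Finset Nd} (hn : n < 18 * K + n0 b) (hK : 2 ≤ K) :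
    Function.Injective (ptf b n K D) := by
  have hK' : (2 : ℤ) ≤ K := by exact_mod_cast hK
  have key : ∀ i j : Fin n, ∀ (h : i.val < n0 b), ¬ j.val < n0 b →
      ptf b n K D i ≠ ptf b n K D j := by
    intro i j h h' heq
    unfold ptf at heq
    rw [dif_pos h, dif_neg h'] at heq
    have hv := px_gap ((nu b).symm ⟨i.val, h⟩).2
    set v := ((nu b).symm ⟨i.val, h⟩).1
    unfold ps pos at heq
    simp only [Prod.mk_add_mk, Prod.mk.injEq] at heq
    have h1 := heq.1
    have h3 : (n0 b : ℤ) ≤ j.val := by exact_mod_cast not_lt.1 h'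
    have h2 : (j.val : ℤ) + 1 < 18 * K + n0 b := by
      have := j.2
      exact_mod_cast (by omega : j.val + 1 < 18 * K + n0 b)
    rcases hv with hv | hv
    · rw [hv] at h1
      omega
    · have e1 : (K : ℤ) * (-1) ≤ K * b.px v := mul_le_mul_of_nonneg_left hv (by omega)
      omega
  intro i j hij
  by_cases h : i.val < n0 b
  · by_cases h' : j.val < n0 b
    · unfold ptf at hij
      rw [dif_pos h, dif_pos h'] at hij
      have h1 := ps_inj hM hK ((nu b).symm ⟨i.val, h⟩).2 ((nu b).symm ⟨j.val, h'⟩).2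
        (add_right_cancel hij)
      have h2 := (nu b).symm.injective (Subtype.ext h1)
      simp only [Fin.mk.injEq] at h2
      exact Fin.ext h2
    · exact absurd hij (key i j h h')
  · by_cases h' : j.val < n0 b
    · exact absurd hij.symm (key j i h' h)
    · unfold ptf at hij
      rw [dif_neg h, dif_neg h'] at hij
      rw [Prod.mk.injEq] at hij
      apply Fin.ext
      have := hij.1
      omega

/-- the placement for a set of displaced nodes -/
noncomputable def plc (hM : 1 ≤ b.M) {n K N : ℕ} (hN1 : (64 * b.M + 70) * K ≤ N)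
    (hN2 : (72 * b.h + 54) * K + 1 ≤ N) (hn : n < 18 * K + n0 b) (hK : 2 ≤ K)
    (D : Finset Nd) : Placement n N :=
  ⟨ptf b n K D, ptf_inj hM hn hK, ptf_rng hN1 hN2 hn.le (by omega)⟩

theorem ptf_lab {n K : ℕ} {D : Finset Nd} {hn : n0 b ≤ n} {h0 : 0 < n} {v : Nd}
    (hv : b.Val a0 v) : ptf b n K D (lab b hn h0 v) =
      ps K b.pos D v + (19 * (K : ℤ), (72 * b.h + 45) * (K : ℤ) + 1) := by
  have h1 := (lab_im b (hn := hn) (h0 := h0) (lab b hn h0 v)).2 ⟨v, hv, rfl⟩
  have h2 : (⟨(lab b hn h0 v).val, h1⟩ : Fin (n0 b)) = nu b ⟨v, hv⟩ := by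
    ext
    simp only [lab_val b hv, Fin.val_castLE]
  unfold ptf
  rw [dif_pos h1, h2, Equiv.symm_apply_apply]

section

variable (hM : 1 ≤ b.M) {n K N : ℕ} (hN1 : (64 * b.M + 70) * K ≤ N)
    (hN2 : (72 * b.h + 54) * K + 1 ≤ N) (hn : n < 18 * K + n0 b) (hK : 2 ≤ K)
    (hn0 : n0 b ≤ n)

theorem three_le_n0 : 3 ≤ n0 b := by
  have hH : b.H = 2 * b.h + 2 := rfl
  have h1 : b.Val a0 (.S 0 false) := by change 0 < b.H; omega
  have h2 : b.Val a0 (.S 0 true) := by change 0 < b.H; omega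
  have h3 : b.Val a0 (.C 0 false) := by change 0 < b.H; omega
  have h4 : Function.Injective (![⟨_, h1⟩, ⟨_, h2⟩, ⟨_, h3⟩] : Fin 3 → {v // b.Val a0 v}) := by
    intro i j
    fin_cases i <;> fin_cases j <;> simp
  have h5 := Nat.card_le_card_of_injective _ h4
  rw [Nat.card_fin] at h5
  exact h5

include hn0

/-- every tour of the labels is at least as long as a tour of the nodes -/
theorem plc_lower {e : ℕ} {C : Finset ℕ} (σ : Tour n) : ∃ l : List Nd, l.Nodup ∧ (∀ v, v ∈ l ↔ b.Val a0 v) ∧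
    tl (fun v w => dst (ps K b.pos (dset e C) v) (ps K b.pos (dset e C) w)) l ≤
      len (plc hM hN1 hN2 hn hK (dset e C)) σ := by
  have h3 := three_le_n0 (b := b)
  refine lower (by omega) _ (lab := lab b hn0 (by omega)) (lab_inj b) (fun v w hv hw => ?_) σ
  change dst (ptf b n K (dset e C) (lab b hn0 (by omega) v))
    (ptf b n K (dset e C) (lab b hn0 (by omega) w)) = _
  rw [ptf_lab hv, ptf_lab hw, dst_add]

/-- the tour of the labels given by a tour of the nodes -/
theorem plc_upper {l : List Nd} (h1 : (Nd.C 0 false :: Nd.S 0 false :: l).Nodup)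
    (h2 : ∀ v, v ∈ Nd.C 0 false :: Nd.S 0 false :: l ↔ b.Val a0 v) :
    ∃ σ : Tour n, ∀ (e : ℕ) (C : Finset ℕ),
      len (plc hM hN1 hN2 hn hK (dset e C)) σ =
      tl (fun v w => dst (ps K b.pos (dset e C) v) (ps K b.pos (dset e C) w))
        (Nd.C 0 false :: Nd.S 0 false :: l) := by
  have h3 := three_le_n0 (b := b)
  have hnot : ∀ (e : ℕ) (C : Finset ℕ), ∀ v : Nd, (∀ c, dn e c ≠ v) → v ∉ dset e C := by
    intro e C v hv hv'
    unfold dset at hv'
    obtain ⟨c, -, hc⟩ := Finset.mem_image.1 hv'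
    exact hv c hc
  obtain ⟨σ, hσ⟩ := upper (lab := lab b hn0 (by omega)) hn0 (lab_inj b) (lab_im b) h1 h2
  refine ⟨σ, fun e C => ?_⟩
  have hvC : b.Val a0 (.C 0 false) := (h2 _).1 (by simp)
  have hvS : b.Val a0 (.S 0 false) := (h2 _).1 (by simp)
  refine hσ N _ (ps K b.pos (dset e C)) (18 * K) ((72 * b.h + 45) * (K : ℤ) + 1) (18 * K)
    (fun v w hv hw => ?_) ?_ ?_ ?_ ?_
  · change dst (ptf b n K (dset e C) (lab b hn0 (by omega) v))
      (ptf b n K (dset e C) (lab b hn0 (by omega) w)) = _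
    rw [ptf_lab hv, ptf_lab hw, dst_add]
  · change ptf b n K (dset e C) (lab b hn0 (by omega) _) = _
    rw [ptf_lab hvS]
    unfold ps
    rw [if_neg (hnot e C _ fun c => by simp [dn])]
    simp only [pos, px, py, Prod.mk_add_mk, Prod.mk.injEq]
    constructor
    · simp; ring
    · simp
  · change ptf b n K (dset e C) (lab b hn0 (by omega) _) = _
    rw [ptf_lab hvC]
    unfold ps
    rw [if_neg (hnot e C _ fun c => by simp [dn])]
    simp only [pos, px, py, Prod.mk_add_mk, Prod.mk.injEq]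
    constructor
    · simp; ring
    · simp
  · omega
  · intro i hi
    change ptf b n K (dset e C) i = _
    unfold ptf
    rw [dif_neg (by omega)]

end

end Pool.Agent.T9h21.SD
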