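import Pool.Agent.T9h21.SD.Disp

set_option autoImplicit false

/-!
# The assignment given by a tight tour
-/

namespace Pool.Agent.T9h21.SD

open Pool.Agent.T9h21.TB Pool.Agent.T9h21.TB.Board

section

variable {b : Board} {act : ℕ → ℕ → Bool} {A : Nd → Nd → Prop}

/-- The vertical connections that are used start at true literals. -/
theorem sound' (hM : 1 ≤ b.M) (hC : Loc b act A) :
    ∃ m : ℕ → Bool, ∀ c < b.M, ∀ e ≤ 2 * b.h, vt b act A e (2 * c + 1) false = 1 →
      ∃ i ≤ e, (∀ i', i ≤ i' → i' ≤ e → b.blk i' c = false) ∧ b.lit i c = true ∧
        xor (m i) (b.par i c) = true := by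
  have hH : b.H = 2 * b.h + 2 := rfl
  have hlaw : ∀ i c, i < b.H → c < b.M → _ := fun i c hi hc => law hM hC hi hc
    (vt_pair hM hC hc i hi) (vt_le hM hC hi (by omega) (by omega) _)
    (vt_le hM hC hi (by omega) (by omega) _) (vt_le hM hC hi (by omega) (by omega) _)
  have hlam : ∀ i < b.H, ∀ c < b.M, lam b A i c true =
      (xor (decide (lam b A i 0 true = 1)) (b.par i c)).toNat := by
    intro i hi c
    induction c with
    | zero =>
      intro _
      have : lam b A i 0 true ≤ 1 := gp_le _ _ _ _
      rcases Nat.le_one_iff_eq_zero_or_eq_one.1 this with h | h <;> simp [h, par]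
    | succ c ih =>
      intro hc
      have h1 := ih (by omega)
      obtain ⟨-, -, h2, h3⟩ := hlaw i c hi (by omega)
      cases hlit : b.lit i c with
      | false =>
        rw [(h2 hlit).2 hc, h1, par, hlit, Bool.xor_false]
      | true =>
        have := (h3 hlit).1 hc
        have e : ∀ x y : Bool, xor x (!y) = !xor x y := by decide
        rw [par, hlit, Bool.xor_true, e]
        rw [h1] at this
        generalize xor (decide (lam b A i 0 true = 1)) (b.par i c) = x at this ⊢
        cases x
        · simp at this ⊢; omega
        · simp at this ⊢; omega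
  refine ⟨fun i => decide (lam b A i 0 true = 1), fun c hc => ?_⟩
  -- a used vertical connection starts at a true literal
  have key : ∀ i ≤ 2 * b.h, vt b act A i (2 * c + 1) false = 1 →
      ∃ i0 ≤ i, (∀ i', i0 ≤ i' → i' ≤ i → b.blk i' c = false) ∧ b.lit i0 c = true ∧
        xor (decide (lam b A i0 0 true = 1)) (b.par i0 c) = true := by
    intro i
    induction i with
    | zero =>
      intro hi hd
      obtain ⟨-, hb, h2, h3⟩ := hlaw 0 c (by omega) hc
      have hb' : b.blk 0 c = false := by
        by_contra h
        rw [Bool.not_eq_false] at h
        have := (hb h).2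
        omega
      cases hlit : b.lit 0 c with
      | false =>
        have := (h2 hlit).1
        rw [vt_top] at this
        omega
      | true =>
        have h5 := (h3 hlit).2 (vt_top _) hd
        rw [hlam 0 (by omega) c hc] at h5
        refine ⟨0, le_rfl, fun i' _ h => ?_, hlit, ?_⟩
        · obtain rfl : i' = 0 := by omega
          exact hb'
        · generalize xor (decide (lam b A 0 0 true = 1)) (b.par 0 c) = x at h5 ⊢
          cases x
          · simp at h5
          · rfl
    | succ i ih =>
      intro hi hd
      obtain ⟨-, hb, h2, h3⟩ := hlaw (i + 1) c (by omega) hc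
      have hb' : b.blk (i + 1) c = false := by
        by_contra h
        rw [Bool.not_eq_false] at h
        have := (hb h).2
        omega
      have h7 := (vt_step hM hC (i := i) (n := 2 * c + 1) (by omega) (by omega) (by omega)).1
      have h8 := vt_le (s := false) hM hC (i := i) (n := 2 * c + 1) (by omega) (by omega)
        (by omega)
      rcases Nat.lt_or_ge (vt b act A i (2 * c + 1) false) 1 with h9 | h9
      · cases hlit : b.lit (i + 1) c with
        | false =>
          have := (h2 hlit).1
          omega
        | true =>
          have h5 := (h3 hlit).2 (by omega) hd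
          rw [hlam (i + 1) (by omega) c hc] at h5
          refine ⟨i + 1, le_rfl, fun i' h h' => ?_, hlit, ?_⟩
          · obtain rfl : i' = i + 1 := by omega
            exact hb'
          · generalize xor (decide (lam b A (i + 1) 0 true = 1)) (b.par (i + 1) c) = x at h5 ⊢
            cases x
            · simp at h5
            · rfl
      · obtain ⟨i0, g1, g2, g3, g4⟩ := ih (by omega) (by omega)
        refine ⟨i0, by omega, fun i' h h' => ?_, g3, g4⟩
        rcases Nat.lt_or_ge i i' with h10 | h10
        · obtain rfl : i' = i + 1 := by omega
          exact hb'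
        · exact g2 i' h h10
  exact fun e he h => key e he h

end

end Pool.Agent.T9h21.SD
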