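import Pool.Agent.T9h21.SD.Model
import Pool.Agent.T9h21.TB.Pack

set_option autoImplicit false

/-!
# Tours as lists and as permutations
-/

namespace Pool.Agent.T9h21.SD

open Finset
open Pool.Agent.ETSP (pl tl eucl eucl_tri)

section

variable {V : Type}

theorem dst_eucl (a b : ℤ × ℤ) : dst a b = eucl a b := by
  rw [Pool.Agent.T9h21.TB.eucl_eq]
  unfold dst Pool.Agent.T9h21.TB.dd
  congr 1
  push_cast
  ring

theorem dst_tri (a b c : ℤ × ℤ) : dst a c ≤ dst a b + dst b c := by
  simp only [dst_eucl]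
  exact eucl_tri a b c

theorem dst_comm (a b : ℤ × ℤ) : dst a b = dst b a := by
  unfold dst
  congr 1
  push_cast
  ring

theorem dst_nonneg (a b : ℤ × ℤ) : 0 ≤ dst a b := Real.sqrt_nonneg _

theorem dst_add (a b s : ℤ × ℤ) : dst (a + s) (b + s) = dst a b := by
  unfold dst
  simp only [Prod.fst_add, Prod.snd_add]
  congr 1
  push_cast
  ring

theorem pl_zip (d : V → V → ℝ) (l : List V) : ∀ a b,
    pl d a l b = (List.zipWith d (a :: l) (l ++ [b])).sum := by
  induction l with
  | nil => intro a b; simp [pl]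
  | cons x l ih =>
    intro a b
    simp only [pl, ih, List.cons_append, List.zipWith_cons_cons, List.sum_cons]

theorem map_formPerm [DecidableEq V] {a : V} {l : List V} (h : (a :: l).Nodup) :
    (a :: l).map (a :: l).formPerm = l ++ [a] := by
  apply List.ext_getElem
  · simp
  · intro k h1 h2
    rw [List.getElem_map, List.formPerm_apply_getElem _ h]
    simp only [List.length_map, List.length_cons] at h1
    by_cases h5 : k + 1 < l.length + 1
    · have h6 : k < l.length := by omega
      rw [List.getElem_append_left h6]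
      have : (k + 1) % (a :: l).length = k + 1 := Nat.mod_eq_of_lt (by simpa using h5)
      simp only [this, List.getElem_cons_succ]
    · have : k = l.length := by omega
      subst this
      simp

theorem tl_eq_sum [DecidableEq V] (d : V → V → ℝ) {l : List V} (h : l.Nodup) :
    tl d l = (l.map fun v => d v (l.formPerm v)).sum := by
  cases l with
  | nil => simp [tl]
  | cons a l =>
    change pl d a l a = _
    rw [pl_zip, ← map_formPerm h]
    congr 1
    generalize a :: l = L
    generalize L.formPerm = f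
    induction L with
    | nil => rfl
    | cons x L ih => simp only [List.map_cons, List.zipWith_cons_cons, ih]

theorem pl_tri {d : V → V → ℝ} (hT : ∀ a b c, d a c ≤ d a b + d b c) (a x b : V) (l : List V) :
    pl d a l b ≤ d a x + pl d x l b := by
  cases l with
  | nil => exact hT _ _ _
  | cons y l =>
    simp only [pl]
    linarith [hT a x y]

theorem pl_tri' {d : V → V → ℝ} (hT : ∀ a b c, d a c ≤ d a b + d b c) (l : List V) :
    ∀ a x b : V, pl d a l b ≤ pl d a l x + d x b := by
  induction l with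
  | nil => intro a x b; exact hT _ _ _
  | cons y l ih =>
    intro a x b
    simp only [pl]
    linarith [ih y x b]

theorem pl_filter {d : V → V → ℝ} (hT : ∀ a b c, d a c ≤ d a b + d b c) (q : V → Bool)
    (l : List V) : ∀ a b : V, pl d a (l.filter q) b ≤ pl d a l b := by
  induction l with
  | nil => intro a b; exact le_rfl
  | cons x l ih =>
    intro a b
    rw [List.filter_cons]
    split_ifs with h
    · simp only [pl]
      linarith [ih x b]
    · have h1 := ih x b
      have h2 := pl_tri hT a x b (l.filter q)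
      simp only [pl]
      linarith

theorem tl_filter {d : V → V → ℝ} (hT : ∀ a b c, d a c ≤ d a b + d b c) (h0 : ∀ a b, 0 ≤ d a b)
    (q : V → Bool) (l : List V) : tl d (l.filter q) ≤ tl d l := by
  induction l with
  | nil => exact le_rfl
  | cons x l ih =>
    rw [List.filter_cons]
    split_ifs with h
    · exact pl_filter hT q l x x
    · refine ih.trans ?_
      cases l with
      | nil => exact h0 _ _
      | cons y l =>
        simp only [tl, pl]
        linarith [pl_tri' hT l y x y]

theorem tl_map_on {W : Type} {d : V → V → ℝ} {d' : W → W → ℝ} {f : W → V} {U : W → Prop}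
    (h : ∀ a b, U a → U b → d (f a) (f b) = d' a b) {l : List W} (hl : ∀ a ∈ l, U a) :
    tl d (l.map f) = tl d' l := by
  have h1 : ∀ (l : List W) (v w : W), U v → U w → (∀ a ∈ l, U a) →
      pl d (f v) (l.map f) (f w) = pl d' v l w := by
    intro l
    induction l with
    | nil => intro v w hv hw _; exact h v w hv hw
    | cons x l ih =>
      intro v w hv hw hl
      have hx := hl x (by simp)
      simp only [pl, List.map_cons, h _ _ hv hx]
      rw [ih x w hx hw fun a ha => hl a (by simp [ha])]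
  cases l with
  | nil => rfl
  | cons x l => exact h1 l x x (hl x (by simp)) (hl x (by simp)) fun a ha => hl a (by simp [ha])

end

/-- every tour is given by a list -/
theorem tour_list {n : ℕ} (hn : 2 ≤ n) (σ : Tour n) :
    ∃ l : List (Fin n), l.Nodup ∧ (∀ i, i ∈ l) ∧ l.formPerm = σ.1 := by
  classical
  obtain ⟨f, hf⟩ := σ
  have hsc : ∀ i j, f.SameCycle i j := by
    intro i j
    obtain ⟨k, hk⟩ := hf i j
    exact ⟨k, by simpa using hk⟩
  set a : Fin n := ⟨0, by omega⟩ with ha
  have hs : a ∈ f.support := by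
    rw [Equiv.Perm.mem_support]
    intro h
    obtain ⟨k, hk⟩ := hf a ⟨1, by omega⟩
    have : (f ^ k) a = a := by
      rw [Equiv.Perm.pow_apply_eq_self_of_apply_eq_self h]
    rw [this, ha] at hk
    simp at hk
  refine ⟨f.toList a, Equiv.Perm.nodup_toList f a, fun i => ?_, ?_⟩
  · rw [Equiv.Perm.mem_toList_iff]
    exact ⟨hsc a i, hs⟩
  · rw [Equiv.Perm.formPerm_toList]
    ext i
    rw [(hsc a i).cycleOf_apply]

/-- every list of all labels gives a tour -/
theorem list_tour {n : ℕ} {l : List (Fin n)} (hl : l.Nodup) (hm : ∀ i, i ∈ l) :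
    ∃ σ : Tour n, σ.1 = l.formPerm := by
  refine ⟨⟨l.formPerm, fun i j => ?_⟩, rfl⟩
  obtain ⟨a, ha, rfl⟩ := List.getElem_of_mem (hm i)
  obtain ⟨b, hb, rfl⟩ := List.getElem_of_mem (hm j)
  refine ⟨b + l.length - a, ?_⟩
  rw [List.formPerm_pow_apply_getElem _ hl]
  congr 1
  rw [show a + (b + l.length - a) = b + l.length by omega, Nat.add_mod_right,
    Nat.mod_eq_of_lt hb]

theorem len_list {n N : ℕ} (p : Placement n N) (σ : Tour n) {l : List (Fin n)} (hl : l.Nodup)
    (hm : ∀ i, i ∈ l) (h : l.formPerm = σ.1) :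
    len p σ = tl (fun i j => dst (p.1 i) (p.1 j)) l := by
  rw [tl_eq_sum _ hl, h, ← List.sum_toFinset _ hl]
  unfold len
  have : l.toFinset = univ := by
    ext i
    simp [hm]
  rw [this]

/-- Every tour visits the labels of a set `U` in some order, and is not shorter than this. -/
theorem lower {n N : ℕ} (hn : 2 ≤ n) (p : Placement n N) {V : Type} {U : V → Prop}
    {pos : V → ℤ × ℤ} {lab : V → Fin n} (hinj : ∀ v w, U v → U w → lab v = lab w → v = w)
    (hpos : ∀ v w, U v → U w → dst (p.1 (lab v)) (p.1 (lab w)) = dst (pos v) (pos w))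
    (σ : Tour n) : ∃ l : List V, l.Nodup ∧ (∀ v, v ∈ l ↔ U v) ∧
      tl (fun v w => dst (pos v) (pos w)) l ≤ len p σ := by
  classical
  obtain ⟨l0, h1, h2, h3⟩ := tour_list hn σ
  set q : Fin n → Bool := fun i => decide (∃ v, U v ∧ lab v = i) with hq
  have hex : ∀ L : List (Fin n), (∀ i ∈ L, ∃ v, U v ∧ lab v = i) →
      ∃ l : List V, (∀ v ∈ l, U v) ∧ l.map lab = L := by
    intro L
    induction L with
    | nil => intro _; exact ⟨[], by simp, rfl⟩
    | cons i L ih =>
      intro h
      obtain ⟨l, g1, g2⟩ := ih fun j hj => h j (by simp [hj])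
      obtain ⟨v, g3, g4⟩ := h i (by simp)
      exact ⟨v :: l, by simpa [g3] using g1, by simp [g2, g4]⟩
  obtain ⟨l, g1, g2⟩ := hex (l0.filter q) (by
    intro i hi
    rw [List.mem_filter] at hi
    simpa [hq] using hi.2)
  refine ⟨l, ?_, ?_, ?_⟩
  · apply List.Nodup.of_map lab
    rw [g2]
    exact h1.filter _
  · intro v
    refine ⟨g1 v, fun hv => ?_⟩
    have : lab v ∈ l.map lab := by
      rw [g2, List.mem_filter]
      exact ⟨h2 _, by rw [hq]; simp only [decide_eq_true_eq]; exact ⟨v, hv, rfl⟩⟩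
    rw [List.mem_map] at this
    obtain ⟨w, g3, g4⟩ := this
    rwa [← hinj w v (g1 w g3) hv g4]
  · rw [len_list p σ h1 h2 h3]
    have h4 := tl_filter (d := fun i j => dst (p.1 i) (p.1 j)) (fun a b c => dst_tri _ _ _)
      (fun a b => dst_nonneg _ _) q l0
    have h5 := tl_map_on (d := fun i j => dst (p.1 i) (p.1 j))
      (d' := fun v w => dst (pos v) (pos w)) (f := lab) (U := U) hpos g1
    rw [g2] at h5
    rw [← h5]
    exact h4

/-- the extra labels `m + k - 1, ..., m` -/
def exl {n : ℕ} (m : ℕ) : (k : ℕ) → m + k ≤ n → List (Fin n)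
  | 0, _ => []
  | k + 1, h => ⟨m + k, by omega⟩ :: exl m k (by omega)

theorem mem_exl {n m : ℕ} (i : Fin n) : ∀ (k : ℕ) (h : m + k ≤ n),
    i ∈ exl m k h ↔ m ≤ i.val ∧ i.val < m + k := by
  intro k
  induction k with
  | zero => intro h; simp [exl]
  | succ k ih =>
    intro h
    simp only [exl, List.mem_cons, ih, Fin.ext_iff]
    omega

theorem nodup_exl {n m : ℕ} : ∀ (k : ℕ) (h : m + k ≤ n), (exl m k h).Nodup := by
  intro k
  induction k with
  | zero => intro h; simp [exl]
  | succ k ih =>
    intro h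
    simp only [exl, List.nodup_cons, ih, and_true, mem_exl]
    simp

theorem dst_hor (a b c : ℤ) (h : 0 ≤ b - a) : dst (a, c) (b, c) = ((b - a : ℤ) : ℝ) := by
  unfold dst
  have h1 : (0 : ℝ) ≤ ((b - a : ℤ) : ℝ) := by exact_mod_cast h
  rw [show (((a, c).1 - (b, c).1 : ℤ) : ℝ) ^ 2 + (((a, c).2 - (b, c).2 : ℤ) : ℝ) ^ 2 =
    ((b - a : ℤ) : ℝ) ^ 2 by push_cast; ring, Real.sqrt_sq h1]

/-- The length of the path through the extra labels. -/
theorem pl_exl {n N : ℕ} (p : Placement n N) {m : ℕ} {X0 Y : ℤ} {c : Fin n}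
    (hc : p.1 c = (X0, Y)) (hx : ∀ i : Fin n, m ≤ i.val → p.1 i = (X0 - (i.val - m + 1), Y)) :
    ∀ (k : ℕ) (h : m + k ≤ n) (a : Fin n) (X : ℤ), (k : ℤ) ≤ X → p.1 a = (X0 - X, Y) →
      pl (fun i j => dst (p.1 i) (p.1 j)) a (exl m k h) c = X := by
  intro k
  induction k with
  | zero =>
    intro h a X hX ha
    simp only [exl, pl, ha, hc]
    rw [dst_hor _ _ _ (by simp at hX; omega)]
    congr 1
    ring
  | succ k ih =>
    intro h a X hX ha
    simp only [exl, pl]
    have h1 := hx ⟨m + k, by omega⟩ (by simp)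
    rw [ih (by omega) ⟨m + k, by omega⟩ (k + 1) (by omega) (by
      rw [h1]
      simp), ha, h1, dst_hor _ _ _ (by push_cast at hX ⊢; omega)]
    push_cast
    ring

/-- A closed tour through the nodes in `U` that passes from `c` to `s` is a tour of all labels,
if the extra labels are between `c` and `s`. -/
theorem upper {n : ℕ} {m : ℕ} (hm : m ≤ n) {V : Type} {U : V → Prop} {lab : V → Fin n}
    (hinj : ∀ v w, U v → U w → lab v = lab w → v = w)
    (him : ∀ i : Fin n, i.val < m ↔ ∃ v, U v ∧ lab v = i) {c s : V} {l : List V}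
    (hn : (c :: s :: l).Nodup) (hl : ∀ v, v ∈ c :: s :: l ↔ U v) :
    ∃ σ : Tour n, ∀ (N : ℕ) (p : Placement n N) (pos : V → ℤ × ℤ) (X0 Y X : ℤ),
      (∀ v w, U v → U w → dst (p.1 (lab v)) (p.1 (lab w)) = dst (pos v) (pos w)) →
      p.1 (lab s) = (X0, Y) → p.1 (lab c) = (X0 - X, Y) → ((n - m : ℕ) : ℤ) ≤ X →
      (∀ i : Fin n, m ≤ i.val → p.1 i = (X0 - (i.val - m + 1), Y)) →
      len p σ = tl (fun v w => dst (pos v) (pos w)) (c :: s :: l) := by
  have hU : ∀ v, v ∈ l → U v := fun v hv => (hl v).1 (by simp [hv])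
  have hUc : U c := (hl c).1 (by simp)
  have hUs : U s := (hl s).1 (by simp)
  set L : List (Fin n) := lab c :: (exl m (n - m) (by omega) ++ lab s :: l.map lab) with hL
  have hlt : ∀ v, U v → (lab v).val < m := fun v hv => (him _).2 ⟨v, hv, rfl⟩
  have hLn : L.Nodup := by
    rw [List.nodup_cons, List.nodup_cons] at hn
    obtain ⟨h1, h2, h3⟩ := hn
    rw [hL, List.nodup_cons, List.nodup_append', List.nodup_cons]
    refine ⟨?_, nodup_exl _ _, ⟨?_, ?_⟩, ?_⟩
    · rw [List.mem_append, List.mem_cons, List.mem_map, mem_exl]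
      rintro (h | h | ⟨v, hv, h⟩)
      · have := hlt c hUc
        omega
      · exact h1 (by simp [hinj c s hUc hUs h])
      · exact h1 (by simp [← hinj v c (hU v hv) hUc h, hv])
    · rw [List.mem_map]
      rintro ⟨v, hv, h⟩
      exact h2 (by rwa [← hinj v s (hU v hv) hUs h])
    · exact List.Nodup.map_on (fun v hv w hw h => hinj v w (hU v hv) (hU w hw) h) h3
    · intro i hi hi'
      rw [mem_exl] at hi
      rw [List.mem_cons, List.mem_map] at hi'
      rcases hi' with rfl | ⟨v, hv, rfl⟩
      · have := hlt s hUs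
        omega
      · have := hlt v (hU v hv)
        omega
  have hLm : ∀ i, i ∈ L := by
    intro i
    rw [hL, List.mem_cons, List.mem_append, List.mem_cons, List.mem_map, mem_exl]
    rcases Nat.lt_or_ge i.val m with h | h
    · obtain ⟨v, hv, rfl⟩ := (him i).1 h
      rw [← hl, List.mem_cons, List.mem_cons] at hv
      rcases hv with rfl | rfl | hv
      · exact Or.inl rfl
      · exact Or.inr (Or.inr (Or.inl rfl))
      · exact Or.inr (Or.inr (Or.inr ⟨v, hv, rfl⟩))
    · right; left
      have := i.2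
      omega
  obtain ⟨σ, hσ⟩ := list_tour hLn hLm
  refine ⟨σ, fun N p pos X0 Y X h1 h2 h3 h4 h5 => ?_⟩
  rw [len_list p σ hLn hLm hσ.symm, hL]
  change pl _ (lab c) (exl m (n - m) (by omega) ++ lab s :: l.map lab) (lab c) = _
  rw [Pool.Agent.ETSP.pl_append, pl_exl p h2 h5 (n - m) (by omega) (lab c) X h4 h3]
  have h6 := tl_map_on (d := fun i j => dst (p.1 i) (p.1 j))
    (d' := fun v w => dst (pos v) (pos w)) (f := lab) (U := U) h1 (l := c :: s :: l)
    (fun v hv => (hl v).1 hv)
  rw [← h6]
  simp only [List.map_cons, tl, pl]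
  rw [h2, h3]
  congr 1
  rw [dst_hor _ _ _ (by omega)]
  congr 1
  ring

end Pool.Agent.T9h21.SD
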